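import Pool.Agent.H5.Sturm.Geo

set_option autoImplicit false

open Real Filter Topology

namespace H5.Sturm

noncomputable def cseq (n : ℕ) : ℝ := 1 - 1 / ((n : ℝ) + 1)

lemma cseq_nonneg (n : ℕ) : 0 ≤ cseq n := by
  unfold cseq
  have : (1 : ℝ) / ((n : ℝ) + 1) ≤ 1 := by
    rw [div_le_one (by positivity)]
    linarith [(Nat.cast_nonneg n : (0 : ℝ) ≤ n)]
  linarith

lemma cseq_lt (n : ℕ) : cseq n < 1 := by
  unfold cseq
  have : (0 : ℝ) < 1 / ((n : ℝ) + 1) := by positivity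
  linarith

lemma cseq_lim : Tendsto cseq atTop (𝓝 1) := by
  have := (tendsto_one_div_add_atTop_nhds_zero_nat (𝕜 := ℝ)).const_sub 1
  rw [sub_zero] at this
  exact this

lemma fixedpoints {p q : ℕ} (hp : 0 < p) (hpq : p < q) (n : ℕ) :
    ∃ ψ : ℝ × ℝ → ℝ, Continuous ψ ∧ (∀ θ, Per (fun s => ψ (θ, s))) ∧
      (∀ θ, SC (kap p q) (fun s => ψ (θ, s))) ∧
      (∀ θ t, Real.cos (t - θ) + cseq n * ψ (θ, p * t) ≤ ψ (θ, q * t)) ∧
      (∀ θ s, ∃ k < q, Real.cos (pt q s k - θ) + cseq n * ψ (θ, p * pt q s k) = ψ (θ, s)) := by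
  have hq : 0 < q := by omega
  have hq0 : (0 : ℝ) < q := by exact_mod_cast hq
  obtain ⟨ψ, h1, h2, h3⟩ := good_fix hp hpq hq (cseq_nonneg n) (cseq_lt n) (κ := kap p q) rfl
  refine ⟨ψ, h1, fun θ => (h3 θ).1, fun θ => (h3 θ).2, ?_, ?_⟩
  · intro θ t
    have h4 := term_le_T (p := p) hq (cseq n) ψ (θ, q * t) hq
    rw [h2] at h4
    unfold term pt at h4
    simp only [Nat.cast_zero, mul_zero, add_zero] at h4
    rwa [mul_div_cancel_left₀ _ hq0.ne'] at h4
  · intro θ s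
    obtain ⟨k, hk, h4⟩ := T_attained (p := p) hq (cseq n) ψ (θ, s)
    rw [h2] at h4
    exact ⟨k, hk, h4.symm⟩

/-- for every direction `θ` there is a calibrated sub-action, with contact set an arc -/
lemma existsA {p q : ℕ} (hp : 0 < p) (hpq : p < q) (θ : ℝ) :
    ∃ β : ℝ, ∃ ψ : ℝ → ℝ, ∃ φ₀ : ℝ, Cal p q (kap p q) θ β ψ ∧ D p q θ ψ φ₀ = 0 ∧
      |φ₀| ≤ π / 2 := by
  choose ψ h1 h2 h3 h4 h5 using fixedpoints hp hpq
  obtain ⟨θ', hθ', β, ψ', H, _⟩ := exists_cal (p := p) (q := q) (κ := kap p q) (a := θ) (b := θ)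
    (kap_pos hpq).le cseq_nonneg (fun n => (cseq_lt n).le) cseq_lim
    (ψ := fun n s => ψ n (θ, s)) (θ := fun _ => θ) (fun _ => by simp)
    (fun n => h2 n θ) (fun n => h3 n θ) (fun n t => h4 n θ t) (fun n s => h5 n θ s)
  have e : θ' = θ := by
    simpa using hθ'
  rw [e] at H
  obtain ⟨η, hη0, hη, hK, _, _⟩ := numeric hp hpq
  obtain ⟨φ₀, h6, h7⟩ := exists_zero (θ := θ) hpq H.per H.sc hη0 hη hK
  exact ⟨β, ψ', φ₀, H, h6, h7⟩

/-- every arc `[t₀, t₀ + 2π/q]` occurs as a contact set -/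
lemma existsB {p q : ℕ} (hp : 0 < p) (hpq : p < q) (t₀ : ℝ) :
    ∃ θ β : ℝ, ∃ ψ : ℝ → ℝ, Cal p q (kap p q) θ β ψ ∧ D p q θ ψ (t₀ + π / q - θ) = 0 ∧
      |t₀ + π / q - θ| ≤ π / 2 := by
  have hq : 0 < q := by omega
  have hq0 : (0 : ℝ) < q := by exact_mod_cast hq
  have hpi := Real.pi_pos
  choose ψ h1 h2 h3 h4 h5 using fixedpoints hp hpq
  obtain ⟨η, hη0, hη, hK, _, _⟩ := numeric hp hpq
  have hs : 0 ≤ sin (π / q) := Real.sin_nonneg_of_nonneg_of_le_pi (by positivity) (by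
    rw [div_le_iff₀ hq0]
    have : (1 : ℝ) ≤ q := by exact_mod_cast hq
    nlinarith)
  have hK' : kap p q * π ^ 2 / 2 ≤ 2 * sin (π / q) := by
    have := Real.sin_le_one η
    nlinarith
  have hK0 : 0 ≤ kap p q * π ^ 2 / 2 := by
    have := kap_pos hpq
    positivity
  set a := t₀ + π / q - π / 2 with ha
  set b := t₀ + π / q + π / 2 with hb
  have ivt : ∀ n, ∃ θ ∈ Set.Icc a b,
      Real.cos (t₀ + 2 * π / q - θ) + cseq n * ψ n (θ, p * (t₀ + 2 * π / q)) =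
        Real.cos (t₀ - θ) + cseq n * ψ n (θ, p * t₀) := by
    intro n
    have hcont : Continuous (fun θ => (Real.cos (t₀ + 2 * π / q - θ) +
        cseq n * ψ n (θ, p * (t₀ + 2 * π / q))) -
        (Real.cos (t₀ - θ) + cseq n * ψ n (θ, p * t₀))) := by
      have := h1 n
      fun_prop
    have hc0 := cseq_nonneg n
    have hc1 := (cseq_lt n).le
    have hcos : ∀ θ, Real.cos (t₀ + 2 * π / q - θ) - Real.cos (t₀ - θ) =
        -(2 * sin (π / q) * sin (t₀ + π / q - θ)) := by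
      intro θ
      rw [show t₀ + 2 * π / q - θ = (t₀ + π / q - θ) + π / q by ring,
        show t₀ - θ = (t₀ + π / q - θ) - π / q by ring]
      generalize t₀ + π / q - θ = x
      rw [Real.cos_add, Real.cos_sub]
      ring
    have hosc := fun θ => (h3 n θ).osc (kap_pos hpq).le (h2 n θ)
    have h6 : (Real.cos (t₀ + 2 * π / q - a) + cseq n * ψ n (a, p * (t₀ + 2 * π / q))) -
        (Real.cos (t₀ - a) + cseq n * ψ n (a, p * t₀)) ≤ 0 := by
      have e1 := hcos a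
      rw [show t₀ + π / q - a = π / 2 by rw [ha]; ring, Real.sin_pi_div_two] at e1
      have e2 := hosc a (p * (t₀ + 2 * π / q)) (p * t₀)
      nlinarith
    have h7 : 0 ≤ (Real.cos (t₀ + 2 * π / q - b) + cseq n * ψ n (b, p * (t₀ + 2 * π / q))) -
        (Real.cos (t₀ - b) + cseq n * ψ n (b, p * t₀)) := by
      have e1 := hcos b
      rw [show t₀ + π / q - b = -(π / 2) by rw [hb]; ring, Real.sin_neg,
        Real.sin_pi_div_two] at e1
      have e2 := hosc b (p * t₀) (p * (t₀ + 2 * π / q))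
      nlinarith
    obtain ⟨θ, h8, h9⟩ := intermediate_value_Icc (by linarith : a ≤ b) hcont.continuousOn
      (Set.mem_Icc.2 ⟨h6, h7⟩)
    refine ⟨θ, h8, ?_⟩
    simp only at h9
    linarith
  choose θ hθ hz using ivt
  obtain ⟨θ', hθ', β, ψ', H, H2⟩ := exists_cal (p := p) (q := q) (κ := kap p q) (a := a) (b := b)
    (kap_pos hpq).le cseq_nonneg (fun n => (cseq_lt n).le) cseq_lim
    (ψ := fun n s => ψ n (θ n, s)) (θ := θ) hθ
    (fun n => h2 n _) (fun n => h3 n _) (fun n t => h4 n _ t) (fun n s => h5 n _ s)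
  refine ⟨θ', β, ψ', H, ?_, ?_⟩
  · have := H2 t₀ (t₀ + 2 * π / q) hz
    unfold D
    rw [show t₀ + π / q - θ' + π / q = t₀ + 2 * π / q - θ' by ring,
      show t₀ + π / q - θ' - π / q = t₀ - θ' by ring,
      show θ' + (t₀ + π / q - θ') + π / q = t₀ + 2 * π / q by ring,
      show θ' + (t₀ + π / q - θ') - π / q = t₀ by ring]
    linarith
  · rw [abs_le]
    constructor
    · linarith [hθ'.2]
    · linarith [hθ'.1]

end H5.Sturm
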