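import Mathlib

set_option autoImplicit false

open Real Filter Topology

namespace H5.Sturm

/-- `ψ'' ≥ -κ` in the weak sense. -/
def SC (κ : ℝ) (ψ : ℝ → ℝ) : Prop := ConvexOn ℝ Set.univ (fun s => ψ s + κ / 2 * s ^ 2)

def Per (ψ : ℝ → ℝ) : Prop := ∀ s, ψ (s + 2 * π) = ψ s

noncomputable def pt (q : ℕ) (s : ℝ) (k : ℕ) : ℝ := (s + 2 * π * k) / q

noncomputable def term (p q : ℕ) (c : ℝ) (ψ : ℝ × ℝ → ℝ) (x : ℝ × ℝ) (k : ℕ) : ℝ :=
  Real.cos (pt q x.2 k - x.1) + c * ψ (x.1, p * pt q x.2 k)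

noncomputable def Tfun (p q : ℕ) (hq : 0 < q) (c : ℝ) (ψ : ℝ × ℝ → ℝ) (x : ℝ × ℝ) : ℝ :=
  (Finset.range q).sup' (Finset.nonempty_range_iff.2 hq.ne') (term p q c ψ x)

lemma term_le_T {p q : ℕ} (hq : 0 < q) (c : ℝ) (ψ : ℝ × ℝ → ℝ) (x : ℝ × ℝ) {k : ℕ} (hk : k < q) :
    term p q c ψ x k ≤ Tfun p q hq c ψ x :=
  Finset.le_sup' _ (Finset.mem_range.2 hk)

lemma T_attained {p q : ℕ} (hq : 0 < q) (c : ℝ) (ψ : ℝ × ℝ → ℝ) (x : ℝ × ℝ) :
    ∃ k < q, Tfun p q hq c ψ x = term p q c ψ x k := by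
  obtain ⟨k, hk, h⟩ := Finset.exists_mem_eq_sup' (Finset.nonempty_range_iff.2 hq.ne')
    (term p q c ψ x)
  exact ⟨k, Finset.mem_range.1 hk, h⟩

lemma T_le {p q : ℕ} (hq : 0 < q) (c : ℝ) (ψ : ℝ × ℝ → ℝ) (x : ℝ × ℝ) {B : ℝ}
    (h : ∀ k < q, term p q c ψ x k ≤ B) : Tfun p q hq c ψ x ≤ B :=
  Finset.sup'_le _ _ fun k hk => h k (Finset.mem_range.1 hk)

lemma T_le_add {p q : ℕ} (hq : 0 < q) {c : ℝ} (hc : 0 ≤ c) {ψ₁ ψ₂ : ℝ × ℝ → ℝ} {d : ℝ}
    (h : ∀ x, ψ₁ x ≤ ψ₂ x + d) (x : ℝ × ℝ) :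
    Tfun p q hq c ψ₁ x ≤ Tfun p q hq c ψ₂ x + c * d := by
  apply T_le
  intro k hk
  have h1 := term_le_T (p := p) hq c ψ₂ x hk
  have h2 := h (x.1, p * pt q x.2 k)
  have h3 : term p q c ψ₁ x k ≤ term p q c ψ₂ x k + c * d := by
    unfold term
    nlinarith
  linarith

lemma T_cont {p q : ℕ} (hq : 0 < q) (c : ℝ) {ψ : ℝ × ℝ → ℝ} (hψ : Continuous ψ) :
    Continuous (Tfun p q hq c ψ) := by
  unfold Tfun
  apply Continuous.finset_sup'_apply
  intro k _
  unfold term pt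
  fun_prop

lemma T_bound {p q : ℕ} (hq : 0 < q) {c : ℝ} (hc : 0 ≤ c) {ψ : ℝ × ℝ → ℝ} {B : ℝ}
    (hψ : ∀ x, |ψ x| ≤ B) (x : ℝ × ℝ) : |Tfun p q hq c ψ x| ≤ 1 + c * B := by
  obtain ⟨k, hk, h⟩ := T_attained (p := p) hq c ψ x
  rw [h]
  unfold term
  have h1 := abs_le.1 (hψ (x.1, p * pt q x.2 k))
  have h2 := Real.neg_one_le_cos (pt q x.2 k - x.1)
  have h3 := Real.cos_le_one (pt q x.2 k - x.1)
  rw [abs_le]
  constructor <;> nlinarith

open BoundedContinuousFunction in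
noncomputable def T (p q : ℕ) (hq : 0 < q) (c : ℝ) (hc : 0 ≤ c) (ψ : (ℝ × ℝ) →ᵇ ℝ) :
    (ℝ × ℝ) →ᵇ ℝ :=
  BoundedContinuousFunction.ofNormedAddCommGroup (Tfun p q hq c ψ) (T_cont hq c ψ.continuous)
    (1 + c * ‖ψ‖) (fun x => T_bound hq hc (fun y => ψ.norm_coe_le_norm y) x)

open BoundedContinuousFunction in
lemma T_contracting (p q : ℕ) (hq : 0 < q) (c : ℝ) (hc : 0 ≤ c) (hc1 : c < 1) :
    ContractingWith ⟨c, hc⟩ (T p q hq c hc) := by
  refine ⟨?_, ?_⟩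
  · exact_mod_cast hc1
  · refine LipschitzWith.of_dist_le_mul fun ψ₁ ψ₂ => ?_
    rw [BoundedContinuousFunction.dist_le (by positivity)]
    intro x
    have key : ∀ ψ₁ ψ₂ : (ℝ × ℝ) →ᵇ ℝ, ∀ y, ψ₁ y ≤ ψ₂ y + dist ψ₁ ψ₂ := by
      intro ψ₁ ψ₂ y
      have := BoundedContinuousFunction.dist_coe_le_dist (f := ψ₁) (g := ψ₂) y
      rw [Real.dist_eq] at this
      linarith [(abs_le.1 this).2]
    have h1 := T_le_add (p := p) hq hc (key ψ₁ ψ₂) x
    have h2 := T_le_add (p := p) hq hc (key ψ₂ ψ₁) x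
    rw [dist_comm ψ₂ ψ₁] at h2
    change dist (Tfun p q hq c ψ₁ x) (Tfun p q hq c ψ₂ x) ≤ c * dist ψ₁ ψ₂
    rw [Real.dist_eq, abs_le]
    constructor <;> linarith

/-! ### periodicity and semiconvexity are preserved -/

def Good (κ : ℝ) (ψ : ℝ × ℝ → ℝ) : Prop :=
  ∀ θ, Per (fun s => ψ (θ, s)) ∧ SC κ (fun s => ψ (θ, s))

lemma Per.nat {ψ : ℝ → ℝ} (h : Per ψ) (n : ℕ) (s : ℝ) : ψ (s + 2 * π * n) = ψ s := by
  induction n with
  | zero => simp
  | succ n ih =>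
    have := h (s + 2 * π * n)
    rw [ih] at this
    rw [← this]
    push_cast
    congr 1
    ring

lemma T_per {p q : ℕ} (hq : 0 < q) (c : ℝ) {ψ : ℝ × ℝ → ℝ} (h : ∀ θ, Per (fun s => ψ (θ, s)))
    (θ : ℝ) : Per (fun s => Tfun p q hq c ψ (θ, s)) := by
  intro s
  have hq' : (q : ℝ) ≠ 0 := by exact_mod_cast hq.ne'
  have shift : ∀ k, pt q (s + 2 * π) k = pt q s (k + 1) := by
    intro k
    unfold pt
    push_cast
    congr 1
    ring
  have wrap : pt q (s + 2 * π) (q - 1) = pt q s 0 + 2 * π := by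
    unfold pt
    rw [Nat.cast_sub (by omega)]
    push_cast
    field_simp
    ring
  have e1 : ∀ k, term p q c ψ (θ, s + 2 * π) k = term p q c ψ (θ, s) (k + 1) := by
    intro k
    unfold term
    simp only
    rw [shift]
  have e2 : term p q c ψ (θ, s + 2 * π) (q - 1) = term p q c ψ (θ, s) 0 := by
    unfold term
    simp only
    rw [wrap]
    have : ψ (θ, p * pt q s 0 + 2 * π * p) = ψ (θ, p * pt q s 0) := (h θ).nat p (p * pt q s 0)
    rw [show (p : ℝ) * (pt q s 0 + 2 * π) = p * pt q s 0 + 2 * π * p by ring, this,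
      show pt q s 0 + 2 * π - θ = pt q s 0 - θ + 2 * π by ring, Real.cos_add_two_pi]
  apply le_antisymm
  · apply T_le
    intro k hk
    by_cases hk' : k + 1 < q
    · rw [e1]
      exact term_le_T hq c ψ _ hk'
    · have : k = q - 1 := by omega
      rw [this, e2]
      exact term_le_T hq c ψ _ hq
  · apply T_le
    intro k hk
    rcases Nat.eq_zero_or_pos k with rfl | hk0
    · rw [← e2]
      exact term_le_T hq c ψ _ (by omega)
    · obtain ⟨j, rfl⟩ : ∃ j, k = j + 1 := ⟨k - 1, by omega⟩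
      rw [← e1]
      exact term_le_T hq c ψ _ (by omega)

lemma sc_cos (q : ℕ) (hq : 0 < q) (a : ℝ) :
    SC (1 / (q : ℝ) ^ 2) (fun s => Real.cos (s / q + a)) := by
  have hq' : (0 : ℝ) < q := by exact_mod_cast hq
  unfold SC
  apply MonotoneOn.convexOn_of_deriv convex_univ
  · fun_prop
  · fun_prop
  · have hd : ∀ s, deriv (fun s : ℝ => Real.cos (s / q + a) + 1 / (q : ℝ) ^ 2 / 2 * s ^ 2) s
        = 1 / q * (s / q - Real.sin (s / q + a)) := by
      intro s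
      have h1 : HasDerivAt (fun s : ℝ => s / q + a) (1 / q) s := by
        simpa using ((hasDerivAt_id s).div_const (q : ℝ)).add_const a
      have h2 := h1.cos
      have h3 : HasDerivAt (fun s : ℝ => 1 / (q : ℝ) ^ 2 / 2 * s ^ 2)
          (1 / (q : ℝ) ^ 2 / 2 * (2 * s)) s := by
        have := (hasDerivAt_pow 2 s).const_mul (1 / (q : ℝ) ^ 2 / 2)
        convert! this using 1
        norm_num
      have h4 : HasDerivAt (fun s : ℝ => Real.cos (s / q + a) + 1 / (q : ℝ) ^ 2 / 2 * s ^ 2)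
          (-Real.sin (s / q + a) * (1 / q) + 1 / (q : ℝ) ^ 2 / 2 * (2 * s)) s := h2.add h3
      rw [h4.deriv]
      field_simp
      ring
    intro x _ y _ hxy
    rw [hd, hd]
    apply mul_le_mul_of_nonneg_left _ (by positivity)
    have h1 : x / q ≤ y / q := by gcongr
    have h2 := Real.abs_sin_sub_sin_le (y / q + a) (x / q + a) 
    rw [abs_le] at h2
    have h3 : |y / q + a - (x / q + a)| = y / q - x / q := by
      rw [abs_of_nonneg] <;> linarith
    rw [h3] at h2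
    linarith [h2.2]

lemma SC.comp_affine {κ : ℝ} {ψ : ℝ → ℝ} (h : SC κ ψ) (a b : ℝ) :
    SC (κ * a ^ 2) (fun s => ψ (a * s + b)) := by
  unfold SC at *
  refine ⟨convex_univ, ?_⟩
  intro x _ y _ u v hu hv huv
  have := h.2 (Set.mem_univ (a * x + b)) (Set.mem_univ (a * y + b)) hu hv huv
  simp only [smul_eq_mul] at *
  have e : u * (a * x + b) + v * (a * y + b) = a * (u * x + v * y) + b := by
    linear_combination b * huv
  rw [e] at this
  have hv' : v = 1 - u := by linarith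
  subst hv'
  nlinarith

lemma SC.mono {κ κ' : ℝ} (hκ : κ ≤ κ') {ψ : ℝ → ℝ} (h : SC κ ψ) : SC κ' ψ := by
  unfold SC at *
  refine ⟨convex_univ, ?_⟩
  intro x _ y _ u v hu hv huv
  have := h.2 (Set.mem_univ x) (Set.mem_univ y) hu hv huv
  simp only [smul_eq_mul] at *
  have hv' : v = 1 - u := by linarith
  subst hv'
  have : 0 ≤ (κ' - κ) * (u * (1 - u) * (x - y) ^ 2) := by
    apply mul_nonneg (by linarith)
    positivity
  nlinarith

lemma SC.add {κ₁ κ₂ : ℝ} {ψ₁ ψ₂ : ℝ → ℝ} (h₁ : SC κ₁ ψ₁) (h₂ : SC κ₂ ψ₂) :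
    SC (κ₁ + κ₂) (fun s => ψ₁ s + ψ₂ s) := by
  unfold SC at *
  have := ConvexOn.add h₁ h₂
  convert! this using 1
  ext s
  simp only [Pi.add_apply]
  ring

lemma SC.const_mul {κ c : ℝ} (hc : 0 ≤ c) {ψ : ℝ → ℝ} (h : SC κ ψ) :
    SC (c * κ) (fun s => c * ψ s) := by
  unfold SC at *
  have := ConvexOn.smul hc h
  convert! this using 1
  ext s
  simp only [smul_eq_mul]
  ring

lemma T_sc {p q : ℕ} (hp : 0 < p) (hpq : p < q) (hq : 0 < q) {c : ℝ} (hc : 0 ≤ c) (hc1 : c ≤ 1)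
    {κ : ℝ} (hκ : κ = 1 / ((q : ℝ) ^ 2 - (p : ℝ) ^ 2))
    {ψ : ℝ × ℝ → ℝ} (h : ∀ θ, SC κ (fun s => ψ (θ, s)))
    (θ : ℝ) : SC κ (fun s => Tfun p q hq c ψ (θ, s)) := by
  have hq' : (0 : ℝ) < q := by exact_mod_cast hq
  have hp' : (0 : ℝ) < p := by exact_mod_cast hp
  have hpq' : (p : ℝ) < q := by exact_mod_cast hpq
  have hd : 0 < (q : ℝ) ^ 2 - (p : ℝ) ^ 2 := by nlinarith
  have hκ0 : 0 < κ := by rw [hκ]; positivity
  have hterm : ∀ k, SC κ (fun s => term p q c ψ (θ, s) k) := by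
    intro k
    have h1 := sc_cos q hq (2 * π * k / q - θ)
    have h2 := (((h θ).comp_affine (p / q) (p * (2 * π * k / q))).const_mul hc)
    have h3 := h1.add h2
    have e : (fun s => term p q c ψ (θ, s) k) = (fun s => Real.cos (s / q + (2 * π * k / q - θ)) +
        c * ψ (θ, p / q * s + p * (2 * π * k / q))) := by
      ext s
      unfold term pt
      simp only
      congr 2
      · ring
      · congr 2
        ring
    rw [e]
    refine SC.mono ?_ h3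
    have e2 : 1 / (q : ℝ) ^ 2 + κ * (p / q) ^ 2 = κ := by
      rw [hκ]
      field_simp
      ring
    have : c * (κ * (p / q : ℝ) ^ 2) ≤ κ * (p / q : ℝ) ^ 2 := by
      have : 0 ≤ κ * (p / q : ℝ) ^ 2 := by positivity
      nlinarith
    linarith
  unfold SC at *
  refine ⟨convex_univ, ?_⟩
  intro x _ y _ u v hu hv huv
  simp only [smul_eq_mul] at *
  obtain ⟨k, hk, hk'⟩ := T_attained (p := p) hq c ψ (θ, u * x + v * y)
  rw [hk']
  have h1 := (hterm k).2 (Set.mem_univ x) (Set.mem_univ y) hu hv huv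
  simp only [smul_eq_mul] at h1
  have h2 := term_le_T (p := p) hq c ψ (θ, x) hk
  have h3 := term_le_T (p := p) hq c ψ (θ, y) hk
  nlinarith

/-! ### the fixed point -/

lemma good_fix {p q : ℕ} (hp : 0 < p) (hpq : p < q) (hq : 0 < q) {c : ℝ} (hc : 0 ≤ c)
    (hc1 : c < 1) {κ : ℝ} (hκ : κ = 1 / ((q : ℝ) ^ 2 - (p : ℝ) ^ 2)) :
    ∃ ψ : ℝ × ℝ → ℝ, Continuous ψ ∧ (∀ x, Tfun p q hq c ψ x = ψ x) ∧ Good κ ψ := by
  have hC := T_contracting p q hq c hc hc1
  have hq' : (0 : ℝ) < q := by exact_mod_cast hq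
  have hp' : (0 : ℝ) < p := by exact_mod_cast hp
  have hpq' : (p : ℝ) < q := by exact_mod_cast hpq
  have hd : 0 < (q : ℝ) ^ 2 - (p : ℝ) ^ 2 := by nlinarith
  have hκ0 : 0 < κ := by rw [hκ]; positivity
  set ψ := ContractingWith.fixedPoint _ hC with hψ
  have hlim := hC.tendsto_iterate_fixedPoint 0
  have hpt : ∀ x, Tendsto (fun n => ((T p q hq c hc)^[n] 0) x) atTop (𝓝 (ψ x)) := by
    intro x
    rw [BoundedContinuousFunction.tendsto_iff_tendstoUniformly] at hlim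
    exact hlim.tendsto_at x
  have hgood : ∀ n, Good κ ((T p q hq c hc)^[n] 0) := by
    intro n
    induction n with
    | zero =>
      intro θ
      refine ⟨fun s => by simp, ?_⟩
      have h0 : SC 0 (fun _ : ℝ => (0:ℝ)) := by
        unfold SC
        simpa using convexOn_const (0:ℝ) convex_univ
      exact SC.mono hκ0.le h0
    | succ n ih =>
      rw [Function.iterate_succ_apply']
      intro θ
      exact ⟨T_per hq c (fun θ => (ih θ).1) θ, T_sc hp hpq hq hc hc1.le hκ (fun θ => (ih θ).2) θ⟩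
  refine ⟨ψ, ψ.continuous, ?_, ?_⟩
  · intro x
    have := hC.fixedPoint_isFixedPt
    have h2 : T p q hq c hc ψ = ψ := this
    have h3 : (T p q hq c hc ψ) x = ψ x := by rw [h2]
    exact h3
  · intro θ
    constructor
    · intro s
      exact tendsto_nhds_unique (hpt (θ, s + 2 * π))
        ((hpt (θ, s)).congr fun n => ((hgood n θ).1 s).symm)
    · unfold SC
      refine ⟨convex_univ, ?_⟩
      intro x _ y _ u v hu hv huv
      simp only [smul_eq_mul]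
      refine le_of_tendsto_of_tendsto'
        (((hpt (θ, u * x + v * y))).add_const (κ / 2 * (u * x + v * y) ^ 2))
        ((((hpt (θ, x))).add_const (κ / 2 * x ^ 2)).const_mul u |>.add
          ((((hpt (θ, y))).add_const (κ / 2 * y ^ 2)).const_mul v)) ?_
      intro n
      have := (hgood n θ).2.2 (Set.mem_univ x) (Set.mem_univ y) hu hv huv
      simpa only [smul_eq_mul] using this

end H5.Sturm
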