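import Pool.Agent.H5.Sturm.Lim

set_option autoImplicit false

open Real Filter Topology

namespace H5.Sturm

noncomputable def kap (p q : ℕ) : ℝ := 1 / ((q : ℝ) ^ 2 - (p : ℝ) ^ 2)

lemma kap_pos {p q : ℕ} (hpq : p < q) : 0 < kap p q := by
  unfold kap
  have h1 : (p : ℝ) < q := by exact_mod_cast hpq
  have h2 : (0 : ℝ) ≤ p := Nat.cast_nonneg p
  have : 0 < (q : ℝ) ^ 2 - (p : ℝ) ^ 2 := by nlinarith
  positivity

lemma numeric {p q : ℕ} (hp : 0 < p) (hpq : p < q) : ∃ η : ℝ, 0 < η ∧ η < π / 2 ∧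
    kap p q * π ^ 2 / 2 < 2 * sin (π / q) * sin η ∧
    kap p q * (2 * π - 2 * π * p / q) * p < 2 * sin (π / q) * cos η ∧
    ∀ v : ℝ, |v| ≤ π → 1 - 2 * (kap p q * π ^ 2 / 2) ≤ cos v → |v| ≤ π - η + π / q := by
  have hpi := Real.pi_pos
  have hpi1 := Real.pi_gt_d6
  have hpi2 := Real.pi_lt_d6
  have hp0 : (0 : ℝ) < p := by exact_mod_cast hp
  have hpq0 : (p : ℝ) + 1 ≤ q := by exact_mod_cast hpq
  have hq0 : (0 : ℝ) < q := by linarith
  have hsum : 0 < (p : ℝ) + q := by linarith
  have hdiff : 0 < (q : ℝ) - p := by linarith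
  have hsq : 0 < (q : ℝ) ^ 2 - p ^ 2 := by nlinarith
  have eL : kap p q * (2 * π - 2 * π * p / q) * p = π / q * (2 * p / (p + q)) := by
    unfold kap
    field_simp
    ring
  have hr : 2 * (p : ℝ) / (p + q) < 1 := by rw [div_lt_one hsum]; linarith
  rcases Nat.lt_or_ge q 3 with hq3 | hq3
  · -- `(p,q) = (1,2)`
    have hq2 : q = 2 := by omega
    have hp1 : p = 1 := by omega
    subst hq2 hp1
    rw [eL]
    have hc : cos (arccos (28 / 53)) = 28 / 53 := Real.cos_arccos (by norm_num) (by norm_num)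
    have hs : sin (arccos (28 / 53)) = 45 / 53 := by
      rw [Real.sin_arccos, show (1 : ℝ) - (28 / 53) ^ 2 = (45 / 53) ^ 2 by norm_num,
        Real.sqrt_sq (by norm_num)]
    have h2 : arccos (28 / 53) < π / 2 := Real.arccos_lt_pi_div_two.2 (by norm_num)
    refine ⟨arccos (28 / 53), Real.arccos_pos.2 (by norm_num), h2, ?_, ?_, ?_⟩
    · rw [hs]
      push_cast
      rw [Real.sin_pi_div_two]
      unfold kap
      norm_num
      nlinarith
    · rw [hc]
      push_cast
      rw [Real.sin_pi_div_two]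
      norm_num
      nlinarith
    · intro v hv _
      push_cast
      linarith
  · have hq3' : (3 : ℝ) ≤ q := by exact_mod_cast hq3
    have hK : kap p q * π ^ 2 / 2 ≤ π / q * (π * q / (2 * (2 * q - 1))) := by
      have h1 : kap p q ≤ 1 / (2 * q - 1) := by
        unfold kap
        apply one_div_le_one_div_of_le (by linarith)
        nlinarith
      have h2 : π / q * (π * q / (2 * (2 * q - 1))) = 1 / (2 * q - 1) * π ^ 2 / 2 := by
        have : (2 * (q : ℝ) - 1) ≠ 0 := by linarith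
        field_simp
      rw [h2]
      gcongr
    have hL : π / q * (2 * p / (p + q)) < π / q * 1 := by
      apply mul_lt_mul_of_pos_left hr (by positivity)
    have hsqrt : (1.414 : ℝ) < √2 := by
      rw [show (1.414 : ℝ) = √(1.414 ^ 2) by rw [Real.sqrt_sq (by norm_num)]]
      apply Real.sqrt_lt_sqrt (by norm_num)
      norm_num
    refine ⟨π / 4, by linarith, by linarith, ?_, ?_, ?_⟩
    · rw [Real.sin_pi_div_four]
      refine lt_of_le_of_lt hK ?_
      rcases Nat.lt_or_ge q 4 with hq4 | hq4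
      · have hq3 : q = 3 := by omega
        subst hq3
        push_cast
        rw [Real.sin_pi_div_three]
        have h3 : (1.732 : ℝ) < √3 := by
          rw [show (1.732 : ℝ) = √(1.732 ^ 2) by rw [Real.sqrt_sq (by norm_num)]]
          apply Real.sqrt_lt_sqrt (by norm_num)
          norm_num
        nlinarith
      · have hq4' : (4 : ℝ) ≤ q := by exact_mod_cast hq4
        have hx1 : π / q ≤ 0.7854 := by
          rw [div_le_iff₀ hq0]; nlinarith
        have hx0 : 0 < π / q := by positivity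
        have hs := Real.sin_gt_sub_cube hx0
        have h4 : π * q / (2 * (2 * q - 1)) ≤ 0.8976 := by
          rw [div_le_iff₀ (by linarith)]
          nlinarith
        set x := π / (q : ℝ) with hx
        have h5 : x * (π * q / (2 * (2 * q - 1))) ≤ x * 0.8976 := by gcongr
        have h6 : x * 0.845 ≤ x - x ^ 3 / 6 := by nlinarith [sq_nonneg x]
        nlinarith
    · rw [Real.cos_pi_div_four, eL]
      refine lt_trans hL ?_
      rcases Nat.lt_or_ge q 4 with hq4 | hq4
      · have hq3 : q = 3 := by omega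
        subst hq3
        push_cast
        rw [Real.sin_pi_div_three]
        have h3 : (1.732 : ℝ) < √3 := by
          rw [show (1.732 : ℝ) = √(1.732 ^ 2) by rw [Real.sqrt_sq (by norm_num)]]
          apply Real.sqrt_lt_sqrt (by norm_num)
          norm_num
        nlinarith
      · have hq4' : (4 : ℝ) ≤ q := by exact_mod_cast hq4
        have hx1 : π / q ≤ 0.7854 := by
          rw [div_le_iff₀ hq0]; nlinarith
        have hx0 : 0 < π / q := by positivity
        have hs := Real.sin_gt_sub_cube hx0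
        set x := π / (q : ℝ) with hx
        have h6 : x * 0.845 ≤ x - x ^ 3 / 6 := by nlinarith [sq_nonneg x]
        nlinarith
    · intro v hv hcv
      rcases Nat.lt_or_ge q 5 with hq5 | hq5
      · have : (q : ℝ) ≤ 4 := by exact_mod_cast (by omega : q ≤ 4)
        have : π / 4 ≤ π / q := by gcongr
        linarith
      · have hq5' : (5 : ℝ) ≤ q := by exact_mod_cast hq5
        have h7 : π / q * (π * q / (2 * (2 * q - 1))) ≤ 0.6 := by
          have : π / q * (π * q / (2 * (2 * q - 1))) = π ^ 2 / (2 * (2 * q - 1)) := by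
            field_simp
          rw [this, div_le_iff₀ (by linarith)]
          nlinarith
        by_contra hcon
        push Not at hcon
        have hx0 : 0 < π / q := by positivity
        have h8 : 3 * π / 4 < |v| := by linarith
        have h9 : cos |v| < cos (3 * π / 4) :=
          Real.cos_lt_cos_of_nonneg_of_le_pi (by linarith) hv h8
        have h10 : cos (3 * π / 4) = - (√2 / 2) := by
          rw [show 3 * π / 4 = π - π / 4 by ring, Real.cos_pi_sub, Real.cos_pi_div_four]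
        rw [Real.cos_abs, h10] at h9
        linarith

/-- difference of the two neighbouring preimages, in terms of the angle `φ` of their midpoint
seen from `θ` -/
noncomputable def D (p q : ℕ) (θ : ℝ) (ψ : ℝ → ℝ) (φ : ℝ) : ℝ :=
  (cos (φ + π / q) + ψ (p * (θ + φ + π / q))) - (cos (φ - π / q) + ψ (p * (θ + φ - π / q)))

noncomputable def Psi (p q : ℕ) (θ : ℝ) (ψ : ℝ → ℝ) (φ : ℝ) : ℝ :=
  ψ (p * (θ + φ - π / q) + 2 * π * p / q) - ψ (p * (θ + φ - π / q))

lemma D_eq (p q : ℕ) (hq : 0 < q) (θ : ℝ) (ψ : ℝ → ℝ) (φ : ℝ) :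
    D p q θ ψ φ = -(2 * sin (π / q) * sin φ) + Psi p q θ ψ φ := by
  unfold D Psi
  have hq0 : (0 : ℝ) < q := by exact_mod_cast hq
  rw [Real.cos_add, Real.cos_sub,
    show (p : ℝ) * (θ + φ - π / q) + 2 * π * p / q = p * (θ + φ + π / q) by ring]
  ring

lemma Psi_abs {p q : ℕ} {κ : ℝ} (hκ : 0 ≤ κ) {θ : ℝ} {ψ : ℝ → ℝ} (hp : Per ψ) (hsc : SC κ ψ)
    (φ : ℝ) : |Psi p q θ ψ φ| ≤ κ * π ^ 2 / 2 := by
  unfold Psi
  rw [abs_le]
  constructor
  · linarith [hsc.osc hκ hp (p * (θ + φ - π / q)) (p * (θ + φ - π / q) + 2 * π * p / q)]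
  · linarith [hsc.osc hκ hp (p * (θ + φ - π / q) + 2 * π * p / q) (p * (θ + φ - π / q))]

lemma Psi_incr {p q : ℕ} (hpq : p < q) {κ : ℝ} {θ : ℝ} {ψ : ℝ → ℝ} (hp : Per ψ)
    (hsc : SC κ ψ) {φ φ' : ℝ} (h : φ ≤ φ') :
    Psi p q θ ψ φ' - Psi p q θ ψ φ ≤ κ * (2 * π - 2 * π * p / q) * p * (φ' - φ) := by
  have hq0 : (0 : ℝ) < q := by exact_mod_cast (by omega : 0 < q)
  have hpq' : (p : ℝ) ≤ q := by exact_mod_cast hpq.le
  have hp0 : (0 : ℝ) ≤ p := Nat.cast_nonneg p
  have hδ : 2 * π * p / q ≤ 2 * π := by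
    rw [div_le_iff₀ hq0]
    have := Real.pi_pos
    nlinarith
  have h1 := hsc.incr hp (a := p * (θ + φ - π / q)) (b := p * (θ + φ' - π / q))
    (δ := 2 * π * p / q) (by gcongr) hδ
  unfold Psi
  refine h1.trans (le_of_eq ?_)
  ring

lemma sin_incr {η φ φ' : ℝ} (hη : η ≤ π) (h1 : -η ≤ φ) (h2 : φ ≤ φ') (h3 : φ' ≤ η) :
    cos η * (φ' - φ) ≤ sin φ' - sin φ := by
  have hmono : MonotoneOn (fun x => sin x - cos η * x) (Set.Icc (-η) η) := by
    apply monotoneOn_of_deriv_nonneg (convex_Icc _ _)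
    · fun_prop
    · fun_prop
    · intro x hx
      rw [interior_Icc] at hx
      have : deriv (fun x => sin x - cos η * x) x = cos x - cos η := by
        have h1 : HasDerivAt (fun x => sin x - cos η * x) (cos x - cos η * 1) x :=
          (Real.hasDerivAt_sin x).sub ((hasDerivAt_id x).const_mul _)
        rw [h1.deriv, mul_one]
      rw [this, ← Real.cos_abs x]
      have : cos η ≤ cos |x| := Real.cos_le_cos_of_nonneg_of_le_pi (abs_nonneg x) hη
        (abs_le.2 ⟨hx.1.le, hx.2.le⟩)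
      linarith
  have := hmono (Set.mem_Icc.2 ⟨h1, by linarith⟩) (Set.mem_Icc.2 ⟨by linarith, h3⟩) h2
  simp only at this
  linarith

lemma sin_ge_sin {η φ : ℝ} (hη0 : 0 < η) (hη : η < π / 2) (h1 : η ≤ φ) (h2 : φ ≤ π - η) :
    sin η ≤ sin φ := by
  rcases le_total φ (π / 2) with h | h
  · exact Real.sin_le_sin_of_le_of_le_pi_div_two (by linarith) h h1
  · rw [← Real.sin_pi_sub φ]
    exact Real.sin_le_sin_of_le_of_le_pi_div_two (by linarith) (by linarith) (by linarith)

section sign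

variable {p q : ℕ} {θ : ℝ} {ψ : ℝ → ℝ} {η : ℝ}

/-- The sign structure of `D`. -/
lemma sign (hpq : p < q) (hper : Per ψ) (hsc : SC (kap p q) ψ)
    (hη0 : 0 < η) (hη : η < π / 2)
    (hK : kap p q * π ^ 2 / 2 < 2 * sin (π / q) * sin η)
    (hL : kap p q * (2 * π - 2 * π * p / q) * p < 2 * sin (π / q) * cos η)
    {φ₀ : ℝ} (h0 : D p q θ ψ φ₀ = 0) (h1 : |φ₀| ≤ π / 2) :
    (∀ φ, φ₀ < φ → φ ≤ π - η → D p q θ ψ φ < 0) ∧
    (∀ φ, φ < φ₀ → -(π - η) ≤ φ → 0 < D p q θ ψ φ) := by
  have hq : 0 < q := by omega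
  have hpi := Real.pi_pos
  have hq0 : (0 : ℝ) < q := by exact_mod_cast hq
  have hκ := kap_pos hpq
  have hs : 0 ≤ sin (π / q) := Real.sin_nonneg_of_nonneg_of_le_pi (by positivity) (by
    rw [div_le_iff₀ hq0]
    have : (1 : ℝ) ≤ q := by exact_mod_cast hq
    nlinarith)
  rw [D_eq p q hq] at h0
  have hP0 := abs_le.1 (Psi_abs (p := p) (q := q) hκ.le (θ := θ) hper hsc φ₀)
  rw [abs_le] at h1
  have hφη : |φ₀| < η := by
    rw [abs_lt]
    constructor
    · by_contra hcon
      push Not at hcon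
      have : sin φ₀ ≤ sin (-η) := Real.sin_le_sin_of_le_of_le_pi_div_two (by linarith)
        (by linarith) hcon
      rw [Real.sin_neg] at this
      nlinarith
    · by_contra hcon
      push Not at hcon
      have : sin η ≤ sin φ₀ := Real.sin_le_sin_of_le_of_le_pi_div_two (by linarith)
        (by linarith) hcon
      nlinarith
  rw [abs_lt] at hφη
  constructor
  · intro φ h2 h3
    rw [D_eq p q hq]
    rcases le_total φ η with h4 | h4
    · have h5 := Psi_incr hpq (θ := θ) hper hsc h2.le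
      have h6 := sin_incr (by linarith) hφη.1.le h2.le h4
      have h7 : 0 < φ - φ₀ := by linarith
      nlinarith [mul_lt_mul_of_pos_right hL h7, mul_le_mul_of_nonneg_left h6 hs]
    · have h5 := sin_ge_sin hη0 hη h4 h3
      have h6 := (abs_le.1 (Psi_abs (p := p) (q := q) hκ.le (θ := θ) hper hsc φ)).2
      nlinarith [mul_le_mul_of_nonneg_left h5 hs]
  · intro φ h2 h3
    rw [D_eq p q hq]
    rcases le_total (-η) φ with h4 | h4
    · have h5 := Psi_incr hpq (θ := θ) hper hsc h2.le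
      have h6 := sin_incr (by linarith) h4 h2.le hφη.2.le
      have h7 : 0 < φ₀ - φ := by linarith
      nlinarith [mul_lt_mul_of_pos_right hL h7, mul_le_mul_of_nonneg_left h6 hs]
    · have h5 := sin_ge_sin hη0 hη (φ := -φ) (by linarith) (by linarith)
      rw [Real.sin_neg] at h5
      have h6 := (abs_le.1 (Psi_abs (p := p) (q := q) hκ.le (θ := θ) hper hsc φ)).1
      nlinarith [mul_le_mul_of_nonneg_left h5 hs]

lemma D_cont (hsc : SC (kap p q) ψ) : Continuous (D p q θ ψ) := by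
  have := hsc.continuous
  unfold D
  fun_prop

lemma exists_zero (hpq : p < q) (hper : Per ψ) (hsc : SC (kap p q) ψ)
    (hη0 : 0 < η) (hη : η < π / 2)
    (hK : kap p q * π ^ 2 / 2 < 2 * sin (π / q) * sin η) :
    ∃ φ₀, D p q θ ψ φ₀ = 0 ∧ |φ₀| ≤ π / 2 := by
  have hq : 0 < q := by omega
  have hκ := kap_pos hpq
  have h1 : D p q θ ψ η ≤ 0 := by
    rw [D_eq p q hq]
    linarith [(abs_le.1 (Psi_abs (p := p) (q := q) hκ.le (θ := θ) hper hsc η)).2]
  have h2 : 0 ≤ D p q θ ψ (-η) := by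
    rw [D_eq p q hq, Real.sin_neg]
    linarith [(abs_le.1 (Psi_abs (p := p) (q := q) hκ.le (θ := θ) hper hsc (-η))).1]
  obtain ⟨φ₀, h3, h4⟩ := intermediate_value_Icc' (by linarith : -η ≤ η)
    (D_cont (θ := θ) hsc).continuousOn (Set.mem_Icc.2 ⟨h1, h2⟩)
  exact ⟨φ₀, h4, abs_le.2 ⟨by linarith [h3.1], by linarith [h3.2]⟩⟩

end sign

/-- the contact set -/
def Con (p q : ℕ) (θ β : ℝ) (ψ : ℝ → ℝ) (v : ℝ) : Prop :=
  cos v + ψ (p * (θ + v)) = ψ (q * (θ + v)) + β

lemma con_arc {p q : ℕ} (hp : 0 < p) (hpq : p < q) {θ β : ℝ} {ψ : ℝ → ℝ}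
    (H : Cal p q (kap p q) θ β ψ) {φ₀ : ℝ} (h0 : D p q θ ψ φ₀ = 0) (h1 : |φ₀| ≤ π / 2)
    {v : ℝ} (hv : |v| ≤ π) (hc : Con p q θ β ψ v) : φ₀ - π / q ≤ v ∧ v ≤ φ₀ + π / q := by
  obtain ⟨η, hη0, hη, hK, hL, hV⟩ := numeric hp hpq
  obtain ⟨s1, s2⟩ := sign hpq H.per H.sc hη0 hη hK hL h0 h1
  have hκ := kap_pos hpq
  have hq : 0 < q := by omega
  have hq0 : (0 : ℝ) < q := by exact_mod_cast hq
  unfold Con at hc
  have hcos : 1 - 2 * (kap p q * π ^ 2 / 2) ≤ cos v := by
    have h2 := H.le θ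
    rw [sub_self, Real.cos_zero] at h2
    have h3 := H.sc.osc hκ.le H.per (q * θ) (p * θ)
    have h4 := H.sc.osc hκ.le H.per (p * (θ + v)) (q * (θ + v))
    linarith
  have hv2 := hV v hv hcos
  rw [abs_le] at hv2
  have hup : D p q θ ψ (v + π / q) ≤ 0 := by
    unfold D
    have h2 := H.le (θ + v + 2 * π / q)
    have e1 : (q : ℝ) * (θ + v + 2 * π / q) = q * (θ + v) + 2 * π := by field_simp
    rw [e1, H.per] at h2
    rw [show v + π / q + π / q = θ + v + 2 * π / q - θ by ring,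
      show θ + (v + π / q) + π / q = θ + v + 2 * π / q by ring,
      show v + π / q - π / q = v by ring, show θ + (v + π / q) - π / q = θ + v by ring]
    linarith
  have hdown : 0 ≤ D p q θ ψ (v - π / q) := by
    unfold D
    have h2 := H.le (θ + v - 2 * π / q)
    have e1 : (q : ℝ) * (θ + v) = q * (θ + v - 2 * π / q) + 2 * π := by field_simp; ring
    have e2 : ψ (q * (θ + v)) = ψ (q * (θ + v - 2 * π / q)) := by rw [e1, H.per]
    rw [show v - π / q - π / q = θ + v - 2 * π / q - θ by ring,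
      show θ + (v - π / q) - π / q = θ + v - 2 * π / q by ring,
      show v - π / q + π / q = v by ring, show θ + (v - π / q) + π / q = θ + v by ring]
    linarith
  constructor
  · by_contra hcon
    push Not at hcon
    have := s2 (v + π / q) (by linarith) (by linarith)
    linarith
  · by_contra hcon
    push Not at hcon
    have := s1 (v - π / q) (by linarith) (by linarith)
    linarith

lemma red (t : ℝ) : ∃ v : ℝ, ∃ n : ℤ, |v| ≤ π ∧ t = v + 2 * π * n := by
  have hpi := Real.pi_pos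
  refine ⟨t - 2 * π * round (t / (2 * π)), round (t / (2 * π)), ?_, by ring⟩
  have h := abs_sub_round (t / (2 * π))
  have e : t - 2 * π * round (t / (2 * π)) = 2 * π * (t / (2 * π) - round (t / (2 * π))) := by
    field_simp
  rw [e, abs_mul, abs_of_pos (by positivity : (0:ℝ) < 2 * π)]
  nlinarith

lemma con_per {p q : ℕ} {θ β : ℝ} {ψ : ℝ → ℝ} (hper : Per ψ) (v : ℝ) (n : ℤ) :
    Con p q θ β ψ (v + 2 * π * n) ↔ Con p q θ β ψ v := by
  unfold Con
  have e1 : ψ (p * (θ + (v + 2 * π * n))) = ψ (p * (θ + v)) := by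
    have := hper.int (p * n) (p * (θ + v))
    rw [← this]
    push_cast
    congr 1
    ring
  have e2 : ψ (q * (θ + (v + 2 * π * n))) = ψ (q * (θ + v)) := by
    have := hper.int (q * n) (q * (θ + v))
    rw [← this]
    push_cast
    congr 1
    ring
  rw [e1, e2, show v + 2 * π * (n : ℝ) = v + n * (2 * π) by ring, Real.cos_add_int_mul_two_pi]

lemma con_whole {p q : ℕ} (hp : 0 < p) (hpq : p < q) {θ β : ℝ} {ψ : ℝ → ℝ}
    (H : Cal p q (kap p q) θ β ψ) {φ₀ : ℝ} (h0 : D p q θ ψ φ₀ = 0) (h1 : |φ₀| ≤ π / 2)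
    {v : ℝ} (hv1 : φ₀ - π / q ≤ v) (hv2 : v ≤ φ₀ + π / q) : Con p q θ β ψ v := by
  have hpi := Real.pi_pos
  have hq : 0 < q := by omega
  have hq0 : (0 : ℝ) < q := by exact_mod_cast hq
  obtain ⟨k, hk, h⟩ := H.att (q * (θ + v))
  have ept : pt q (q * (θ + v)) k = θ + (v + 2 * π * k / q) := by
    unfold pt; field_simp; ring
  rw [ept] at h
  have hcon : Con p q θ β ψ (v + 2 * π * k / q) := by
    unfold Con
    rw [show θ + (v + 2 * π * k / q) - θ = v + 2 * π * k / q by ring] at h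
    rw [h]
    congr 1
    have := H.per.nat k (q * (θ + v))
    rw [← this]
    congr 1
    field_simp
    ring
  obtain ⟨v', n, hv', e⟩ := red (v + 2 * π * k / q)
  rw [e, con_per H.per] at hcon
  obtain ⟨h3, h4⟩ := con_arc hp hpq H h0 h1 hv' hcon
  -- `v' - v = 2π (k - q n)/q`
  have e2 : v' - v = 2 * π / q * ((k : ℤ) - q * n : ℤ) := by
    push_cast
    field_simp
    field_simp at e
    linarith
  have hstep : 0 < 2 * π / (q : ℝ) := by positivity
  have h5 : |v' - v| ≤ 2 * π / q := by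
    rw [abs_le, show 2 * π / (q : ℝ) = π / q + π / q by ring]
    constructor <;> linarith
  have hj : |((k : ℤ) - q * n : ℤ)| ≤ 1 := by
    rw [e2, abs_mul, abs_of_pos hstep] at h5
    have : |(((k : ℤ) - q * n : ℤ) : ℝ)| ≤ 1 := by
      by_contra hh
      push Not at hh
      nlinarith
    exact_mod_cast this
  generalize hjj : ((k : ℤ) - q * n : ℤ) = j at *
  have hcases : j = 0 ∨ j = 1 ∨ j = -1 := by
    rw [abs_le] at hj
    omega
  unfold D at h0
  rcases hcases with rfl | rfl | rfl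
  · have : v' = v := by
      rw [Int.cast_zero, mul_zero] at e2
      linarith
    rwa [this] at hcon
  · -- `v' = v + 2π/q`, so `v = φ₀ - π/q`
    have e3 : v' = v + 2 * π / q := by
      rw [Int.cast_one, mul_one] at e2; linarith
    have e4 : v = φ₀ - π / q := by
      have : 2 * π / (q : ℝ) = π / q + π / q := by ring
      linarith
    have e5 : v' = φ₀ + π / q := by rw [e3, e4]; ring
    unfold Con at hcon ⊢
    rw [e5, ← add_assoc] at hcon
    rw [e4, show θ + (φ₀ - π / q) = θ + φ₀ - π / q by ring]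
    have e6 : ψ (q * (θ + φ₀ + π / q)) = ψ (q * (θ + φ₀ - π / q)) := by
      rw [← H.per (q * (θ + φ₀ - π / q))]
      congr 1
      field_simp
      ring
    linarith
  · have e3 : v' = v - 2 * π / q := by
      push_cast at e2; linarith
    have e4 : v = φ₀ + π / q := by
      have : 2 * π / (q : ℝ) = π / q + π / q := by ring
      linarith
    have e5 : v' = φ₀ - π / q := by rw [e3, e4]; ring
    unfold Con at hcon ⊢
    rw [e5, show θ + (φ₀ - π / q) = θ + φ₀ - π / q by ring] at hcon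
    rw [e4, ← add_assoc]
    have e6 : ψ (q * (θ + φ₀ + π / q)) = ψ (q * (θ + φ₀ - π / q)) := by
      rw [← H.per (q * (θ + φ₀ - π / q))]
      congr 1
      field_simp
      ring
    linarith

end H5.Sturm
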