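import Pool.Agent.H5.Sturm.Fix

set_option autoImplicit false

open Real Filter Topology

namespace H5.Sturm

lemma Per.int {ψ : ℝ → ℝ} (h : Per ψ) (n : ℤ) (s : ℝ) : ψ (s + 2 * π * n) = ψ s := by
  obtain ⟨m, rfl | rfl⟩ := n.eq_nat_or_neg
  · exact_mod_cast h.nat m s
  · have := h.nat m (s + 2 * π * ((-(m : ℤ) : ℤ) : ℝ))
    rw [← this]
    congr 1
    push_cast
    ring

/-- oscillation of a periodic semiconvex function -/
lemma SC.osc {κ : ℝ} (hκ : 0 ≤ κ) {ψ : ℝ → ℝ} (h : SC κ ψ) (hp : Per ψ) (a b : ℝ) :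
    ψ a ≤ ψ b + κ * π ^ 2 / 2 := by
  have hpi := Real.pi_pos
  -- choose `b' ≡ b` with `b' ≤ a < b' + 2π`
  set n : ℤ := ⌊(a - b) / (2 * π)⌋ with hn
  have h1 : (n : ℝ) ≤ (a - b) / (2 * π) := Int.floor_le _
  have h2 : (a - b) / (2 * π) < n + 1 := Int.lt_floor_add_one _
  rw [le_div_iff₀ (by positivity)] at h1
  rw [div_lt_iff₀ (by positivity)] at h2
  set b' := b + 2 * π * n with hb'
  have hb1 : ψ b' = ψ b := hp.int n b
  have hb2 : ψ (b' + 2 * π) = ψ b := by rw [hp, hb1]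
  set v := (a - b') / (2 * π) with hv
  have hv0 : 0 ≤ v := by
    apply div_nonneg _ (by positivity)
    rw [hb']; nlinarith
  have hv1 : v ≤ 1 := by
    rw [hv, div_le_one (by positivity), hb']; nlinarith
  have ha : a = (1 - v) * b' + v * (b' + 2 * π) := by
    rw [hv]; field_simp; ring
  have := h.2 (Set.mem_univ b') (Set.mem_univ (b' + 2 * π)) (by linarith : 0 ≤ 1 - v) hv0 (by ring)
  simp only [smul_eq_mul] at this
  rw [← ha, hb1, hb2] at this
  have e : (1 - v) * (κ / 2 * b' ^ 2) + v * (κ / 2 * (b' + 2 * π) ^ 2) - κ / 2 * a ^ 2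
      = κ / 2 * (v * (1 - v)) * (2 * π) ^ 2 := by
    rw [ha]; ring
  have hv4 : v * (1 - v) ≤ 1 / 4 := by nlinarith [sq_nonneg (v - 1 / 2)]
  have : κ / 2 * (v * (1 - v)) * (2 * π) ^ 2 ≤ κ / 2 * (1 / 4) * (2 * π) ^ 2 := by
    gcongr
  nlinarith

/-- one-sided Lipschitz estimate of the increments -/
lemma SC.incr {κ : ℝ} {ψ : ℝ → ℝ} (h : SC κ ψ) (hp : Per ψ) {a b δ : ℝ} (hab : a ≤ b)
    (hδ : δ ≤ 2 * π) :
    (ψ (b + δ) - ψ b) - (ψ (a + δ) - ψ a) ≤ κ * (2 * π - δ) * (b - a) := by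
  rcases hab.eq_or_lt with rfl | hab
  · simp
  have key : (ψ (b + δ) + κ / 2 * (b + δ) ^ 2) + (ψ (a + 2 * π) + κ / 2 * (a + 2 * π) ^ 2) ≤
      (ψ (a + δ) + κ / 2 * (a + δ) ^ 2) + (ψ (b + 2 * π) + κ / 2 * (b + 2 * π) ^ 2) := by
    have hd : 0 < (b + 2 * π) - (a + δ) := by linarith
    set v := (b - a) / ((b + 2 * π) - (a + δ)) with hv
    have hv0 : 0 ≤ v := div_nonneg (by linarith) hd.le
    have hv1 : v ≤ 1 := by rw [hv, div_le_one hd]; linarith
    have hvm : v * ((b + 2 * π) - (a + δ)) = b - a := by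
      rw [hv, div_mul_cancel₀ _ hd.ne']
    have h1 := h.2 (Set.mem_univ (a + δ)) (Set.mem_univ (b + 2 * π))
      (by linarith : 0 ≤ 1 - v) hv0 (by ring)
    have h2 := h.2 (Set.mem_univ (a + δ)) (Set.mem_univ (b + 2 * π))
      hv0 (by linarith : 0 ≤ 1 - v) (by ring)
    simp only [smul_eq_mul] at h1 h2
    rw [show (1 - v) * (a + δ) + v * (b + 2 * π) = b + δ by linear_combination hvm] at h1
    rw [show v * (a + δ) + (1 - v) * (b + 2 * π) = a + 2 * π by linear_combination -hvm] at h2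
    linarith
  rw [hp, hp] at key
  nlinarith

lemma SC.continuous {κ : ℝ} {ψ : ℝ → ℝ} (h : SC κ ψ) : Continuous ψ := by
  have h1 : Continuous (fun s => ψ s + κ / 2 * s ^ 2) := by
    rw [← continuousOn_univ]
    exact ConvexOn.continuousOn isOpen_univ h
  have h2 : Continuous (fun s : ℝ => κ / 2 * s ^ 2) := by fun_prop
  have := h1.sub h2
  convert! this using 1
  ext s
  simp

/-- A calibrated sub-action. -/
structure Cal (p q : ℕ) (κ θ β : ℝ) (ψ : ℝ → ℝ) : Prop where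
  per : Per ψ
  sc : SC κ ψ
  le : ∀ t, Real.cos (t - θ) + ψ (p * t) ≤ ψ (q * t) + β
  att : ∀ s, ∃ k < q, Real.cos (pt q s k - θ) + ψ (p * pt q s k) = ψ s + β

lemma ulim {a b : ℝ} {x : ℕ → ℝ} (h : ∀ n, x n ∈ Set.Icc a b) :
    ∃ y ∈ Set.Icc a b, Tendsto x (hyperfilter ℕ) (𝓝 y) := by
  obtain ⟨y, hy, h1⟩ := (isCompact_Icc (a := a) (b := b)).ultrafilter_le_nhds
    ((hyperfilter ℕ).map x) (by
      rw [le_principal_iff]
      exact Ultrafilter.mem_map.2 (Filter.univ_mem' h))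
  exact ⟨y, hy, h1⟩

/-- Passage to the limit `c → 1`. -/
lemma exists_cal {p q : ℕ} {κ : ℝ} (hκ : 0 ≤ κ) {c : ℕ → ℝ} (hc0 : ∀ n, 0 ≤ c n)
    (hc1 : ∀ n, c n ≤ 1) (hc : Tendsto c atTop (𝓝 1)) {ψ : ℕ → ℝ → ℝ} {θ : ℕ → ℝ} {a b : ℝ}
    (hθ : ∀ n, θ n ∈ Set.Icc a b) (hper : ∀ n, Per (ψ n)) (hsc : ∀ n, SC κ (ψ n))
    (hle : ∀ n t, Real.cos (t - θ n) + c n * ψ n (p * t) ≤ ψ n (q * t))
    (hatt : ∀ n s, ∃ k < q, Real.cos (pt q s k - θ n) + c n * ψ n (p * pt q s k) = ψ n s) :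
    ∃ θ' ∈ Set.Icc a b, ∃ β : ℝ, ∃ ψ' : ℝ → ℝ, Cal p q κ θ' β ψ' ∧
      ∀ t₀ t₁ : ℝ, (∀ n, Real.cos (t₁ - θ n) + c n * ψ n (p * t₁) =
        Real.cos (t₀ - θ n) + c n * ψ n (p * t₀)) →
        Real.cos (t₁ - θ') + ψ' (p * t₁) = Real.cos (t₀ - θ') + ψ' (p * t₀) := by
  set K := κ * π ^ 2 / 2 with hK
  have hK0 : 0 ≤ K := by positivity
  have hχ : ∀ s n, ψ n s - ψ n 0 ∈ Set.Icc (-K) K := by
    intro s n
    have h1 := (hsc n).osc hκ (hper n) s 0
    have h2 := (hsc n).osc hκ (hper n) 0 s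
    constructor <;> linarith
  choose ψ' hψ' hψlim using fun s => ulim (hχ s)
  obtain ⟨θ', hθ', hθlim⟩ := ulim hθ
  have hb : ∀ n, (1 - c n) * ψ n 0 ∈ Set.Icc (-(1 + K)) (1 + K) := by
    intro n
    obtain ⟨k, hk, h⟩ := hatt n 0
    have h1 := hχ (p * pt q 0 k) n
    have h2 := Real.neg_one_le_cos (pt q 0 k - θ n)
    have h3 := Real.cos_le_one (pt q 0 k - θ n)
    have h4 := hc0 n
    have h5 := hc1 n
    have e : (1 - c n) * ψ n 0 = Real.cos (pt q 0 k - θ n)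
        + c n * (ψ n (p * pt q 0 k) - ψ n 0) := by linear_combination -h
    rw [e]
    constructor <;> nlinarith [h1.1, h1.2]
  obtain ⟨β, _, hβlim⟩ := ulim hb
  have hclim : Tendsto c (hyperfilter ℕ) (𝓝 1) := hc.mono_left (Nat.hyperfilter_le_atTop)
  have hcos : ∀ t, Tendsto (fun n => Real.cos (t - θ n)) (hyperfilter ℕ)
      (𝓝 (Real.cos (t - θ'))) := by
    intro t
    exact (Real.continuous_cos.tendsto _).comp (hθlim.const_sub t)
  refine ⟨θ', hθ', β, ψ', ⟨?_, ?_, ?_, ?_⟩, ?_⟩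
  · intro s
    refine tendsto_nhds_unique (hψlim (s + 2 * π)) ((hψlim s).congr fun n => ?_)
    rw [hper n]
  · refine ⟨convex_univ, ?_⟩
    intro x _ y _ u v hu hv huv
    simp only [smul_eq_mul]
    refine le_of_tendsto_of_tendsto'
      ((hψlim (u * x + v * y)).add_const (κ / 2 * (u * x + v * y) ^ 2))
      ((((hψlim x)).add_const (κ / 2 * x ^ 2)).const_mul u |>.add
        ((((hψlim y)).add_const (κ / 2 * y ^ 2)).const_mul v)) ?_
    intro n
    have := (hsc n).2 (Set.mem_univ x) (Set.mem_univ y) hu hv huv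
    simp only [smul_eq_mul] at this
    have e : u * ψ n 0 + v * ψ n 0 = ψ n 0 := by rw [← add_mul, huv, one_mul]
    linarith
  · intro t
    refine le_of_tendsto_of_tendsto' ((hcos t).add (hclim.mul (hψlim (p * t))))
      ((hψlim (q * t)).add hβlim) (fun n => ?_) |> fun h => by simpa using h
    have := hle n t
    nlinarith
  · intro s
    have h1 : ∀ᶠ n in (hyperfilter ℕ : Filter ℕ), ∃ k ∈ (Finset.range q : Set ℕ),
        Real.cos (pt q s k - θ n) + c n * ψ n (p * pt q s k) = ψ n s := by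
      apply Eventually.of_forall
      intro n
      obtain ⟨k, hk, h⟩ := hatt n s
      exact ⟨k, by simpa using hk, h⟩
    rw [Ultrafilter.eventually_exists_mem_iff (Finset.finite_toSet _)] at h1
    obtain ⟨k, hk, h⟩ := h1
    refine ⟨k, by simpa using hk, ?_⟩
    have h2 : Tendsto (fun n => Real.cos (pt q s k - θ n) +
        c n * (ψ n (p * pt q s k) - ψ n 0)) (hyperfilter ℕ)
        (𝓝 (Real.cos (pt q s k - θ') + 1 * ψ' (p * pt q s k))) :=
      (hcos _).add (hclim.mul (hψlim _))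
    have h3 : Tendsto (fun n => (ψ n s - ψ n 0) + (1 - c n) * ψ n 0) (hyperfilter ℕ)
        (𝓝 (ψ' s + β)) := (hψlim s).add hβlim
    rw [one_mul] at h2
    refine tendsto_nhds_unique h2 (h3.congr' ?_)
    filter_upwards [h] with n hn
    rw [← hn]
    ring
  · intro t₀ t₁ h
    have h2 : Tendsto (fun n => Real.cos (t₁ - θ n) +
        c n * (ψ n (p * t₁) - ψ n 0)) (hyperfilter ℕ)
        (𝓝 (Real.cos (t₁ - θ') + 1 * ψ' (p * t₁))) :=
      (hcos _).add (hclim.mul (hψlim _))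
    have h3 : Tendsto (fun n => Real.cos (t₀ - θ n) +
        c n * (ψ n (p * t₀) - ψ n 0)) (hyperfilter ℕ)
        (𝓝 (Real.cos (t₀ - θ') + 1 * ψ' (p * t₀))) :=
      (hcos _).add (hclim.mul (hψlim _))
    rw [one_mul] at h2 h3
    refine tendsto_nhds_unique h2 (h3.congr ?_)
    intro n
    have := h n
    linarith

end H5.Sturm
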