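import Pool.Agent.H5.Sturm.Exist

set_option autoImplicit false

open Real Filter Topology MeasureTheory

namespace H5.Sturm

variable [MeasurableSpace Circle] [BorelSpace Circle]

/-- The graph `G_{p,q} = {(z,w) : w^p = z^q}`. -/
def gra (p q : ℕ) : Set (Circle × Circle) := {g | g.2 ^ p = g.1 ^ q}

def Inv (p q : ℕ) (μ : Measure Circle) : Prop :=
  IsProbabilityMeasure μ ∧ ∃ m : Measure (gra p q), IsProbabilityMeasure m ∧
    m.map (fun g : gra p q => g.1.1) = μ ∧ m.map (fun g : gra p q => g.1.2) = μ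

noncomputable def bar (μ : Measure Circle) : ℂ := ∫ z, (z : ℂ) ∂μ

omit [MeasurableSpace Circle] [BorelSpace Circle] in
lemma isClosed_gra (p q : ℕ) : IsClosed (gra p q) := by
  unfold gra
  exact isClosed_eq (by fun_prop) (by fun_prop)

/-! ### functions of the argument -/

noncomputable def A (z : Circle) : ℝ := Complex.arg (z : ℂ)

lemma measurable_A : Measurable A := by
  unfold A
  exact Complex.measurable_arg.comp
    ((by fun_prop : Continuous (fun z : Circle => (z : ℂ))).measurable)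

omit [MeasurableSpace Circle] [BorelSpace Circle] in
lemma exp_A (z : Circle) : Circle.exp (A z) = z := Circle.exp_arg z

omit [MeasurableSpace Circle] [BorelSpace Circle] in
lemma hat_exp {ψ : ℝ → ℝ} (hψ : Per ψ) (t : ℝ) : ψ (A (Circle.exp t)) = ψ t := by
  obtain ⟨m, hm⟩ := Circle.exp_eq_exp.1 (exp_A (Circle.exp t))
  rw [hm, show t + (m : ℝ) * (2 * π) = t + 2 * π * m by ring, hψ.int]

omit [MeasurableSpace Circle] [BorelSpace Circle] in
lemma hat_pow {ψ : ℝ → ℝ} (hψ : Per ψ) (n : ℕ) (z : Circle) : ψ (A (z ^ n)) = ψ (n * A z) := by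
  have : z ^ n = Circle.exp (n * A z) := by rw [Circle.exp_natCast_mul, exp_A]
  rw [this, hat_exp hψ]

/-- invariance kills coboundaries -/
lemma inv_cob {p q : ℕ} {μ : Measure Circle} (hμ : Inv p q μ) {κ : ℝ} {ψ : ℝ → ℝ}
    (hψ : Per ψ) (hsc : SC κ ψ) :
    ∫ z, ψ (p * A z) ∂μ = ∫ z, ψ (q * A z) ∂μ := by
  obtain ⟨hμ1, m, hm, h1, h2⟩ := hμ
  have hm1 : Measurable (fun g : gra p q => g.1.1) :=
    measurable_fst.comp measurable_subtype_coe
  have hm2 : Measurable (fun g : gra p q => g.1.2) :=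
    measurable_snd.comp measurable_subtype_coe
  have hc := hsc.continuous
  have hmeas : ∀ n : ℕ, AEStronglyMeasurable (fun z => ψ (n * A z)) μ := by
    intro n
    exact (hc.measurable.comp (measurable_A.const_mul _)).aestronglyMeasurable
  conv_lhs => rw [← h2]
  conv_rhs => rw [← h1]
  rw [integral_map hm2.aemeasurable (by rw [h2]; exact hmeas p),
    integral_map hm1.aemeasurable (by rw [h1]; exact hmeas q)]
  apply integral_congr_ae
  filter_upwards with g
  rw [← hat_pow hψ, ← hat_pow hψ, g.2]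

omit [MeasurableSpace Circle] [BorelSpace Circle] in
lemma cos_A (z : Circle) (θ : ℝ) : cos (A z - θ) = ((z : ℂ) * Complex.exp (-(θ * Complex.I))).re := by
  have : (z : ℂ) = Complex.exp (A z * Complex.I) := by
    conv_lhs => rw [← exp_A z]
    exact Circle.coe_exp _
  rw [this, ← Complex.exp_add,
    show (A z : ℂ) * Complex.I + -(θ * Complex.I) = ((A z - θ : ℝ) : ℂ) * Complex.I by
      push_cast; ring, Complex.exp_ofReal_mul_I_re]

lemma integrable_coe (μ : Measure Circle) [IsProbabilityMeasure μ] :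
    Integrable (fun z : Circle => (z : ℂ)) μ := by
  refine Integrable.of_bound
    (by fun_prop : Continuous (fun z : Circle => (z : ℂ))).aestronglyMeasurable
    1 (ae_of_all _ fun z => ?_)
  exact (Circle.norm_coe z).le

lemma integral_cos (μ : Measure Circle) [IsProbabilityMeasure μ] (θ : ℝ) :
    ∫ z, cos (A z - θ) ∂μ = (bar μ * Complex.exp (-(θ * Complex.I))).re := by
  unfold bar
  rw [← integral_mul_const]
  have := (integrable_coe μ).mul_const (Complex.exp (-(θ * Complex.I)))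
  have h2 := integral_re (𝕜 := ℂ) this
  simp only [RCLike.re_to_complex] at h2
  rw [← h2]
  apply integral_congr_ae
  filter_upwards with z
  rw [cos_A]

noncomputable def Phi (p q : ℕ) (θ : ℝ) (ψ : ℝ → ℝ) (z : Circle) : ℝ :=
  cos (A z - θ) + ψ (p * A z) - ψ (q * A z)

lemma bounded_int {κ : ℝ} (hκ : 0 ≤ κ) {ψ : ℝ → ℝ} (hψ : Per ψ) (hsc : SC κ ψ) (n : ℕ)
    (μ : Measure Circle) [IsProbabilityMeasure μ] : Integrable (fun z => ψ (n * A z)) μ := by
  refine Integrable.of_bound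
    ((hsc.continuous.measurable.comp (measurable_A.const_mul _)).aestronglyMeasurable)
    (|ψ 0| + κ * π ^ 2 / 2) (ae_of_all _ fun z => ?_)
  rw [Real.norm_eq_abs, abs_le]
  have h1 := hsc.osc hκ hψ (n * A z) 0
  have h2 := hsc.osc hκ hψ 0 (n * A z)
  have h3 := le_abs_self (ψ 0)
  have h4 := neg_abs_le (ψ 0)
  constructor <;> linarith

lemma int_cosA (μ : Measure Circle) [IsProbabilityMeasure μ] (θ : ℝ) :
    Integrable (fun z => cos (A z - θ)) μ := by
  refine Integrable.of_bound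
    (Real.continuous_cos.measurable.comp (measurable_A.sub_const _)).aestronglyMeasurable
    1 (ae_of_all _ fun z => ?_)
  exact Real.abs_cos_le_one _

lemma int_Phi {p q : ℕ} {κ : ℝ} (hκ : 0 ≤ κ) {θ : ℝ} {ψ : ℝ → ℝ} (hψ : Per ψ) (hsc : SC κ ψ)
    (μ : Measure Circle) [IsProbabilityMeasure μ] : Integrable (Phi p q θ ψ) μ := by
  unfold Phi
  exact ((int_cosA μ θ).add (bounded_int hκ hψ hsc p μ)).sub (bounded_int hκ hψ hsc q μ)

lemma integral_Phi {p q : ℕ} {κ : ℝ} (hκ : 0 ≤ κ) {θ : ℝ} {ψ : ℝ → ℝ} (hψ : Per ψ)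
    (hsc : SC κ ψ) {μ : Measure Circle} (hμ : Inv p q μ) :
    ∫ z, Phi p q θ ψ z ∂μ = (bar μ * Complex.exp (-(θ * Complex.I))).re := by
  have := hμ.1
  unfold Phi
  have e1 := integral_sub ((int_cosA μ θ).add (bounded_int hκ hψ hsc p μ))
    (bounded_int hκ hψ hsc q μ)
  have e2 := integral_add (int_cosA μ θ) (bounded_int hκ hψ hsc p μ)
  simp only [Pi.add_apply] at e1
  rw [e1, e2, inv_cob hμ hψ hsc, integral_cos]
  ring

omit [MeasurableSpace Circle] [BorelSpace Circle] in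
lemma Phi_le {p q : ℕ} {κ θ β : ℝ} {ψ : ℝ → ℝ} (H : Cal p q κ θ β ψ) (z : Circle) :
    Phi p q θ ψ z ≤ β := by
  have := H.le (A z)
  unfold Phi
  linarith

/-- every invariant measure satisfies the bound -/
lemma upper {p q : ℕ} (hpq : p < q) {θ β : ℝ} {ψ : ℝ → ℝ} (H : Cal p q (kap p q) θ β ψ)
    {μ : Measure Circle} (hμ : Inv p q μ) :
    (bar μ * Complex.exp (-(θ * Complex.I))).re ≤ β := by
  have := hμ.1
  rw [← integral_Phi (kap_pos hpq).le H.per H.sc hμ]
  calc ∫ z, Phi p q θ ψ z ∂μ ≤ ∫ _, β ∂μ :=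
        integral_mono (int_Phi (kap_pos hpq).le H.per H.sc μ) (integrable_const _)
          (fun z => Phi_le H z)
    _ = β := by simp

def arc (α : ℝ) (q : ℕ) : Set Circle := Circle.exp '' Set.Icc α (α + 2 * π / q)

omit [MeasurableSpace Circle] [BorelSpace Circle] in
lemma isClosed_arc (α : ℝ) (q : ℕ) : IsClosed (arc α q) :=
  (isCompact_Icc.image (map_continuous Circle.exp)).isClosed

omit [MeasurableSpace Circle] [BorelSpace Circle] in
lemma Phi_eq_iff {p q : ℕ} {θ β : ℝ} {ψ : ℝ → ℝ} {z : Circle} :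
    Phi p q θ ψ z = β ↔ Con p q θ β ψ (A z - θ) := by
  unfold Phi Con
  rw [show θ + (A z - θ) = A z by ring]
  constructor <;> intro h <;> linarith

omit [MeasurableSpace Circle] [BorelSpace Circle] in
lemma contact_iff {p q : ℕ} (hp : 0 < p) (hpq : p < q) {θ β : ℝ} {ψ : ℝ → ℝ}
    (H : Cal p q (kap p q) θ β ψ) {φ₀ : ℝ} (h0 : D p q θ ψ φ₀ = 0) (h1 : |φ₀| ≤ π / 2)
    (z : Circle) : Phi p q θ ψ z = β ↔ z ∈ arc (θ + φ₀ - π / q) q := by
  rw [Phi_eq_iff]
  constructor
  · intro h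
    obtain ⟨v, n, hv, e⟩ := red (A z - θ)
    rw [e, con_per H.per] at h
    obtain ⟨h2, h3⟩ := con_arc hp hpq H h0 h1 hv h
    refine ⟨θ + v, ⟨by linarith, ?_⟩, ?_⟩
    · have : 2 * π / (q : ℝ) = π / q + π / q := by ring
      linarith
    · rw [← exp_A z]
      exact Circle.exp_eq_exp.2 ⟨-n, by push_cast; linarith⟩
  · rintro ⟨t, ⟨ht1, ht2⟩, rfl⟩
    have h2 := con_whole hp hpq H h0 h1 (v := t - θ) (by linarith) (by
      have : 2 * π / (q : ℝ) = π / q + π / q := by ring
      linarith)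
    obtain ⟨m, hm⟩ := Circle.exp_eq_exp.1 (exp_A (Circle.exp t))
    rw [hm, show t + (m : ℝ) * (2 * π) - θ = (t - θ) + 2 * π * m by ring, con_per H.per]
    exact h2

/-- a maximizing measure is supported in the arc -/
lemma support_of_max {p q : ℕ} (hp : 0 < p) (hpq : p < q) {θ β : ℝ} {ψ : ℝ → ℝ}
    (H : Cal p q (kap p q) θ β ψ) {φ₀ : ℝ} (h0 : D p q θ ψ φ₀ = 0) (h1 : |φ₀| ≤ π / 2)
    {μ : Measure Circle} (hμ : Inv p q μ)
    (hmax : β ≤ (bar μ * Complex.exp (-(θ * Complex.I))).re) :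
    μ.support ⊆ arc (θ + φ₀ - π / q) q := by
  have := hμ.1
  rw [← integral_Phi (kap_pos hpq).le H.per H.sc hμ] at hmax
  have hint := int_Phi (p := p) (q := q) (θ := θ) (kap_pos hpq).le H.per H.sc μ
  have h2 : ∫ z, (β - Phi p q θ ψ z) ∂μ = 0 := by
    apply le_antisymm
    · rw [integral_sub (integrable_const _) hint]
      simp only [integral_const, probReal_univ, smul_eq_mul, one_mul]
      linarith
    · exact integral_nonneg fun z => sub_nonneg.2 (Phi_le H z)
  rw [integral_eq_zero_iff_of_nonneg (fun z => sub_nonneg.2 (Phi_le H z))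
    ((integrable_const _).sub hint)] at h2
  apply Measure.support_subset_of_isClosed (isClosed_arc _ _)
  filter_upwards [h2] with z hz
  rw [← contact_iff hp hpq H h0 h1]
  simp only [Pi.zero_apply] at hz
  linarith

/-- a measure supported in the contact arc is maximizing -/
lemma max_of_support {p q : ℕ} (hp : 0 < p) (hpq : p < q) {θ β : ℝ} {ψ : ℝ → ℝ}
    (H : Cal p q (kap p q) θ β ψ) {φ₀ : ℝ} (h0 : D p q θ ψ φ₀ = 0) (h1 : |φ₀| ≤ π / 2)
    {μ : Measure Circle} (hμ : Inv p q μ)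
    (hs : μ.support ⊆ arc (θ + φ₀ - π / q) q) :
    (bar μ * Complex.exp (-(θ * Complex.I))).re = β := by
  have := hμ.1
  rw [← integral_Phi (kap_pos hpq).le H.per H.sc hμ]
  have h2 : ∫ z, Phi p q θ ψ z ∂μ = ∫ _, β ∂μ := by
    apply integral_congr_ae
    filter_upwards [Measure.support_mem_ae (μ := μ)] with z hz
    exact (contact_iff hp hpq H h0 h1 z).2 (hs hz)
  rw [h2]
  simp

end H5.Sturm
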