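import Pool.Agent.H5.Sturm.Meas

set_option autoImplicit false

open Real Filter Topology MeasureTheory

namespace H5.Sturm

/-! ### supporting direction at a boundary point -/

lemma exists_direction {S : Set ℂ} (hS : Convex ℝ S) {b : ℂ} (hb : b ∈ frontier S) :
    ∃ θ : ℝ, ∀ x ∈ S, (x * Complex.exp (-(θ * Complex.I))).re ≤
      (b * Complex.exp (-(θ * Complex.I))).re := by
  have key : ∃ f : ℂ →ₗ[ℝ] ℝ, f ≠ 0 ∧ ∀ x ∈ S, f x ≤ f b := by
    by_cases hne : (interior S).Nonempty
    · have hb' : b ∉ interior S := hb.2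
      obtain ⟨f, hf⟩ := geometric_hahn_banach_open_point hS.interior isOpen_interior hb'
      refine ⟨f.toLinearMap, ?_, ?_⟩
      · intro h0
        obtain ⟨a, ha⟩ := hne
        have := hf a ha
        have h1 : f a = 0 := by
          have := congrArg (fun g : ℂ →ₗ[ℝ] ℝ => g a) h0
          simpa using this
        have h2 : f b = 0 := by
          have := congrArg (fun g : ℂ →ₗ[ℝ] ℝ => g b) h0
          simpa using this
        linarith
      · intro x hx
        have hcl : x ∈ closure (interior S) := by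
          rw [hS.closure_interior_eq_closure_of_nonempty_interior hne]
          exact subset_closure hx
        have : closure (interior S) ⊆ {y | f y ≤ f b} := by
          apply closure_minimal
          · intro y hy
            exact (hf y hy).le
          · exact isClosed_le f.continuous continuous_const
        exact this hcl
    · rw [hS.interior_nonempty_iff_affineSpan_eq_top] at hne
      by_cases hSe : S.Nonempty
      · obtain ⟨x₀, hx₀⟩ := hSe
        have hdir : (affineSpan ℝ S).direction < ⊤ := by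
          rw [lt_top_iff_ne_top]
          intro htop
          exact hne ((AffineSubspace.direction_eq_top_iff_of_nonempty
            ⟨x₀, subset_affineSpan ℝ S hx₀⟩).1 htop)
        obtain ⟨f, hf0, hf⟩ := Submodule.exists_le_ker_of_lt_top _ hdir
        have hconst : ∀ x ∈ S, f x = f x₀ := by
          intro x hx
          have : x - x₀ ∈ (affineSpan ℝ S).direction := by
            have := AffineSubspace.vsub_mem_direction (subset_affineSpan ℝ S hx)
              (subset_affineSpan ℝ S hx₀)
            simpa using this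
          have := hf this
          rw [LinearMap.mem_ker, map_sub] at this
          linarith
        have hb' : f b = f x₀ := by
          have hcl : closure S ⊆ {y | f y = f x₀} := by
            apply closure_minimal hconst
            exact isClosed_eq f.continuous_of_finiteDimensional continuous_const
          exact hcl hb.1
        exact ⟨f, hf0, fun x hx => by rw [hconst x hx, hb']⟩
      · rw [Set.not_nonempty_iff_eq_empty] at hSe
        subst hSe
        simp at hb
  obtain ⟨f, hf0, hf⟩ := key
  -- represent `f`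
  set u : ℂ := ⟨f 1, f Complex.I⟩ with hu
  have hfx : ∀ x : ℂ, f x = x.re * u.re + x.im * u.im := by
    intro x
    have : x = x.re • (1 : ℂ) + x.im • Complex.I := by
      apply Complex.ext <;> simp
    conv_lhs => rw [this]
    rw [map_add, map_smul, map_smul]
    simp [hu]
  have hu0 : u ≠ 0 := by
    intro h
    apply hf0
    ext
    rw [hfx, h]; simp
  have hnorm : 0 < ‖u‖ := norm_pos_iff.2 hu0
  refine ⟨Complex.arg u, fun x hx => ?_⟩
  have hrep : ∀ x : ℂ, f x = ‖u‖ * (x * Complex.exp (-(Complex.arg u * Complex.I))).re := by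
    intro x
    have h1 : u.re = ‖u‖ * Real.cos (Complex.arg u) := (Complex.norm_mul_cos_arg u).symm
    have h2 : u.im = ‖u‖ * Real.sin (Complex.arg u) := (Complex.norm_mul_sin_arg u).symm
    have h3 : Complex.exp (-((Complex.arg u : ℂ) * Complex.I)) =
        ⟨Real.cos (Complex.arg u), -Real.sin (Complex.arg u)⟩ := by
      rw [show -((Complex.arg u : ℂ) * Complex.I) =
        ((-Complex.arg u : ℝ) : ℂ) * Complex.I by push_cast; ring]
      apply Complex.ext
      · rw [Complex.exp_ofReal_mul_I_re, Real.cos_neg]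
      · rw [Complex.exp_ofReal_mul_I_im, Real.sin_neg]
    rw [hfx, h3, Complex.mul_re]
    simp only
    rw [h1, h2]
    ring
  have := hf x hx
  rw [hrep, hrep] at this
  exact le_of_mul_le_mul_left this hnorm

variable [MeasurableSpace Circle] [BorelSpace Circle]

/-! ### convexity -/

def BB (p q : ℕ) : Set ℂ := {b | ∃ μ : Measure Circle, Inv p q μ ∧ bar μ = b}

lemma convex_BB (p q : ℕ) : Convex ℝ (BB p q) := by
  rintro _ ⟨μ₁, ⟨h1, m₁, hm₁, h11, h12⟩, rfl⟩ _ ⟨μ₂, ⟨h2, m₂, hm₂, h21, h22⟩, rfl⟩ u v hu hv huv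
  have hm1 : Measurable (fun g : gra p q => g.1.1) :=
    measurable_fst.comp measurable_subtype_coe
  have hm2 : Measurable (fun g : gra p q => g.1.2) :=
    measurable_snd.comp measurable_subtype_coe
  have huv' : ENNReal.ofReal u + ENNReal.ofReal v = 1 := by
    rw [← ENNReal.ofReal_add hu hv, huv, ENNReal.ofReal_one]
  refine ⟨ENNReal.ofReal u • μ₁ + ENNReal.ofReal v • μ₂, ⟨?_,
    ENNReal.ofReal u • m₁ + ENNReal.ofReal v • m₂, ?_, ?_, ?_⟩, ?_⟩
  · constructor
    simp [huv']
  · constructor
    simp [huv']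
  · rw [Measure.map_add _ _ hm1, Measure.map_smul, Measure.map_smul, h11, h21]
  · rw [Measure.map_add _ _ hm2, Measure.map_smul, Measure.map_smul, h12, h22]
  · unfold bar
    rw [integral_add_measure ((integrable_coe μ₁).smul_measure ENNReal.ofReal_ne_top)
      ((integrable_coe μ₂).smul_measure ENNReal.ofReal_ne_top), integral_smul_measure,
      integral_smul_measure, ENNReal.toReal_ofReal hu, ENNReal.toReal_ofReal hv]

/-! ### existence of an optimal measure -/

/-- the empirical measure of a sequence -/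
noncomputable def emp {X : Type*} [MeasurableSpace X] (g : ℕ → X) (N : ℕ) : Measure X :=
  ENNReal.ofReal (1 / ((N : ℝ) + 1)) • ∑ n ∈ Finset.range (N + 1), Measure.dirac (g n)

omit [MeasurableSpace Circle] [BorelSpace Circle] in
lemma emp_prob {X : Type*} [MeasurableSpace X] (g : ℕ → X) (N : ℕ) :
    IsProbabilityMeasure (emp g N) := by
  constructor
  unfold emp
  rw [Measure.smul_apply, Measure.finsetSum_apply]
  simp only [measure_univ, Finset.sum_const, Finset.card_range, nsmul_eq_mul, mul_one,
    smul_eq_mul]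
  rw [show ((N + 1 : ℕ) : ENNReal) = ENNReal.ofReal ((N : ℝ) + 1) by
    rw [show (N : ℝ) + 1 = ((N + 1 : ℕ) : ℝ) by push_cast; ring, ENNReal.ofReal_natCast],
    ← ENNReal.ofReal_mul (by positivity)]
  have : (N : ℝ) + 1 ≠ 0 := by positivity
  rw [one_div, inv_mul_cancel₀ this, ENNReal.ofReal_one]

omit [MeasurableSpace Circle] [BorelSpace Circle] in
lemma emp_integral {X : Type*} [MeasurableSpace X] (g : ℕ → X) (N : ℕ) {f : X → ℝ}
    (hf : StronglyMeasurable f) :
    ∫ x, f x ∂(emp g N) = 1 / ((N : ℝ) + 1) * ∑ n ∈ Finset.range (N + 1), f (g n) := by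
  unfold emp
  rw [integral_smul_measure, integral_finsetSum_measure, ENNReal.toReal_ofReal (by positivity)]
  · simp only [smul_eq_mul]
    congr 1
    apply Finset.sum_congr rfl
    intro n _
    rw [integral_dirac' f _ hf]
  · intro n _
    exact integrable_dirac' hf (by simp)

lemma exists_opt {p q : ℕ} (hp : 0 < p) (hpq : p < q) {θ β : ℝ} {ψ : ℝ → ℝ}
    (H : Cal p q (kap p q) θ β ψ) :
    ∃ μ : Measure Circle, Inv p q μ ∧ (bar μ * Complex.exp (-(θ * Complex.I))).re = β := by
  have hq : 0 < q := by omega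
  have hq0 : (0 : ℝ) < q := by exact_mod_cast hq
  choose k hk hcal using H.att
  -- the backward orbit
  let s : ℕ → ℝ := fun n => Nat.rec (0 : ℝ) (fun _ x => p * pt q x (k x)) n
  have hs : ∀ n, s (n + 1) = p * pt q (s n) (k (s n)) := fun n => rfl
  set t : ℕ → ℝ := fun n => pt q (s n) (k (s n)) with ht
  have hst : ∀ n, s (n + 1) = p * t n := hs
  have hct : ∀ n, cos (t n - θ) = β + ψ (s n) - ψ (s (n + 1)) := by
    intro n
    have := hcal (s n)
    rw [hst]
    simp only [ht]
    linarith
  have hqt : ∀ n, q * t (n + 1) = p * t n + 2 * π * k (s (n + 1)) := by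
    intro n
    rw [← hst]
    simp only [ht, pt]
    field_simp
  have hmem : ∀ n, ((Circle.exp (t (n + 1)), Circle.exp (t n)) : Circle × Circle) ∈ gra p q := by
    intro n
    change Circle.exp (t n) ^ p = Circle.exp (t (n + 1)) ^ q
    rw [← Circle.exp_natCast_mul, ← Circle.exp_natCast_mul, hqt]
    exact Circle.exp_eq_exp.2 ⟨-(k (s (n + 1))), by push_cast; ring⟩
  set g : ℕ → gra p q := fun n => ⟨_, hmem n⟩ with hg
  have : CompactSpace (gra p q) := isCompact_iff_compactSpace.1 (isClosed_gra p q).isCompact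
  set M : ℕ → ProbabilityMeasure (gra p q) := fun N => ⟨emp g N, emp_prob g N⟩ with hM
  obtain ⟨m, -, hm⟩ := (isCompact_univ (X := ProbabilityMeasure (gra p q))).ultrafilter_le_nhds
    ((hyperfilter ℕ).map M) (by simp)
  have hm' : Tendsto M (hyperfilter ℕ) (𝓝 m) := hm
  rw [ProbabilityMeasure.tendsto_iff_forall_integral_tendsto] at hm'
  have hint : ∀ f : BoundedContinuousFunction (gra p q) ℝ,
      Tendsto (fun N : ℕ => 1 / ((N : ℝ) + 1) * ∑ n ∈ Finset.range (N + 1), f (g n))
        (hyperfilter ℕ) (𝓝 (∫ x, f x ∂(m : Measure (gra p q)))) := by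
    intro f
    refine (hm' f).congr fun N => ?_
    exact emp_integral g N f.continuous.stronglyMeasurable
  have hm1 : Continuous (fun g : gra p q => g.1.1) := by fun_prop
  have hm2 : Continuous (fun g : gra p q => g.1.2) := by fun_prop
  have hzero : Tendsto (fun N : ℕ => 1 / ((N : ℝ) + 1)) (hyperfilter ℕ) (𝓝 0) :=
    (tendsto_one_div_add_atTop_nhds_zero_nat (𝕜 := ℝ)).mono_left Nat.hyperfilter_le_atTop
  -- equal marginals
  have hmarg : (m : Measure (gra p q)).map (fun g : gra p q => g.1.1) =
      (m : Measure (gra p q)).map (fun g : gra p q => g.1.2) := by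
    have := Measure.isProbabilityMeasure_map (μ := (m : Measure (gra p q)))
      hm1.measurable.aemeasurable
    have := Measure.isProbabilityMeasure_map (μ := (m : Measure (gra p q)))
      hm2.measurable.aemeasurable
    apply ext_of_forall_integral_eq_of_IsFiniteMeasure
    intro f
    rw [integral_map hm1.measurable.aemeasurable f.continuous.aestronglyMeasurable,
      integral_map hm2.measurable.aemeasurable f.continuous.aestronglyMeasurable]
    have h1 := hint (f.compContinuous ⟨_, hm1⟩)
    have h2 := hint (f.compContinuous ⟨_, hm2⟩)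
    refine tendsto_nhds_unique h1 ?_
    have h3 : Tendsto (fun N : ℕ => 1 / ((N : ℝ) + 1) *
        (f (Circle.exp (t (N + 1))) - f (Circle.exp (t 0)))) (hyperfilter ℕ) (𝓝 0) := by
      refine squeeze_zero_norm (a := fun N : ℕ => 1 / ((N : ℝ) + 1) * (2 * ‖f‖)) ?_ ?_
      · intro N
        rw [norm_mul, Real.norm_eq_abs, abs_of_nonneg (by positivity)]
        gcongr
        calc ‖f (Circle.exp (t (N + 1))) - f (Circle.exp (t 0))‖
            ≤ ‖f (Circle.exp (t (N + 1)))‖ + ‖f (Circle.exp (t 0))‖ := norm_sub_le _ _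
          _ ≤ ‖f‖ + ‖f‖ := add_le_add (f.norm_coe_le_norm _) (f.norm_coe_le_norm _)
          _ = 2 * ‖f‖ := by ring
      · simpa using hzero.mul_const (2 * ‖f‖)
    have h4 := h2.add h3
    rw [add_zero] at h4
    refine h4.congr fun N => ?_
    rw [← mul_add]
    congr 1
    change ∑ n ∈ Finset.range (N + 1), f (Circle.exp (t n)) +
      (f (Circle.exp (t (N + 1))) - f (Circle.exp (t 0))) =
      ∑ n ∈ Finset.range (N + 1), f (Circle.exp (t (n + 1)))
    have h5 := Finset.sum_range_succ' (fun n => f (Circle.exp (t n))) (N + 1)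
    have h6 := Finset.sum_range_succ (fun n => f (Circle.exp (t n))) (N + 1)
    linarith
  have hprob : IsProbabilityMeasure ((m : Measure (gra p q)).map (fun g : gra p q => g.1.2)) :=
    Measure.isProbabilityMeasure_map hm2.measurable.aemeasurable
  refine ⟨(m : Measure (gra p q)).map (fun g : gra p q => g.1.2),
    ⟨hprob, m, inferInstance, hmarg, rfl⟩, ?_⟩
  rw [← integral_cos]
  -- the value
  set F : BoundedContinuousFunction Circle ℝ := BoundedContinuousFunction.mkOfCompact
    ⟨fun z : Circle => ((z : ℂ) * Complex.exp (-(θ * Complex.I))).re, by fun_prop⟩ with hF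
  have e1 : ∀ z : Circle, cos (A z - θ) = F z := by
    intro z
    rw [cos_A]
    rfl
  have e2 : ∀ x : ℝ, F (Circle.exp x) = cos (x - θ) := by
    intro x
    rw [← e1]
    have hper : Per (fun s => cos (s - θ)) := by
      intro s
      simp only
      rw [show s + 2 * π - θ = s - θ + 2 * π by ring, Real.cos_add_two_pi]
    exact hat_exp hper x
  simp only [e1]
  rw [integral_map hm2.measurable.aemeasurable F.continuous.aestronglyMeasurable]
  have h2 := hint (F.compContinuous ⟨_, hm2⟩)
  refine tendsto_nhds_unique h2 ?_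
  have hbd : ∀ N, |ψ (s 0) - ψ (s N)| ≤ kap p q * π ^ 2 / 2 := by
    intro N
    rw [abs_le]
    constructor
    · linarith [H.sc.osc (kap_pos hpq).le H.per (s N) (s 0)]
    · linarith [H.sc.osc (kap_pos hpq).le H.per (s 0) (s N)]
  have h3 : Tendsto (fun N : ℕ => 1 / ((N : ℝ) + 1) * (ψ (s 0) - ψ (s (N + 1))))
      (hyperfilter ℕ) (𝓝 0) := by
    refine squeeze_zero_norm (a := fun N : ℕ => 1 / ((N : ℝ) + 1) * (kap p q * π ^ 2 / 2)) ?_ ?_
    · intro N
      rw [norm_mul, Real.norm_eq_abs, abs_of_nonneg (by positivity), Real.norm_eq_abs]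
      exact mul_le_mul_of_nonneg_left (hbd (N + 1)) (by positivity)
    · simpa using hzero.mul_const (kap p q * π ^ 2 / 2)
  have h4 := (tendsto_const_nhds (x := β) (f := (hyperfilter ℕ : Filter ℕ))).add h3
  rw [add_zero] at h4
  refine h4.congr fun N => ?_
  change β + 1 / ((N : ℝ) + 1) * (ψ (s 0) - ψ (s (N + 1))) =
    1 / ((N : ℝ) + 1) * ∑ n ∈ Finset.range (N + 1), F (Circle.exp (t n))
  have h5 : ∑ n ∈ Finset.range (N + 1), F (Circle.exp (t n)) =
      ((N : ℝ) + 1) * β + (ψ (s 0) - ψ (s (N + 1))) := by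
    have h6 : ∀ n ∈ Finset.range (N + 1), F (Circle.exp (t n)) =
        β - (ψ (s (n + 1)) - ψ (s n)) := by
      intro n _
      rw [e2, hct]
      ring
    rw [Finset.sum_congr rfl h6, Finset.sum_sub_distrib,
      Finset.sum_range_sub (fun n => ψ (s n)) (N + 1)]
    simp only [Finset.sum_const, Finset.card_range, nsmul_eq_mul]
    push_cast
    ring
  rw [h5]
  have : (N : ℝ) + 1 ≠ 0 := by positivity
  field_simp

/-- The main theorem. -/
theorem main {p q : ℕ} (hp : 1 ≤ p) (hpq : p < q) {μ : Measure Circle} (hμ : Inv p q μ) :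
    bar μ ∈ frontier (BB p q) ↔ ∃ α : ℝ, μ.support ⊆ arc α q := by
  constructor
  · intro hb
    obtain ⟨θ, hθ⟩ := exists_direction (convex_BB p q) hb
    obtain ⟨β, ψ, φ₀, H, h0, h1⟩ := existsA hp hpq θ
    obtain ⟨ν, hν, hν2⟩ := exists_opt hp hpq H
    have h2 := hθ _ ⟨ν, hν, rfl⟩
    rw [hν2] at h2
    exact ⟨_, support_of_max hp hpq H h0 h1 hμ h2⟩
  · rintro ⟨α, hα⟩
    obtain ⟨θ, β, ψ, H, h0, h1⟩ := existsB hp hpq α
    have h2 := max_of_support hp hpq H h0 h1 hμ (by
      convert! hα using 2
      ring)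
    refine ⟨subset_closure ⟨μ, hμ, rfl⟩, ?_⟩
    intro hint
    rw [mem_interior_iff_mem_nhds, Metric.mem_nhds_iff] at hint
    obtain ⟨ε, hε, hball⟩ := hint
    set w : ℂ := bar μ + (ε / 2 : ℝ) * Complex.exp (θ * Complex.I) with hw
    have hwB : w ∈ BB p q := by
      apply hball
      rw [Metric.mem_ball, dist_eq_norm, hw, add_sub_cancel_left, norm_mul,
        Complex.norm_exp_ofReal_mul_I, mul_one, Complex.norm_real, Real.norm_eq_abs,
        abs_of_pos (by positivity)]
      linarith
    obtain ⟨ν, hν, hν2⟩ := hwB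
    have h3 := upper hpq H hν
    rw [hν2, hw, add_mul, mul_assoc, ← Complex.exp_add, add_neg_cancel, Complex.exp_zero,
      Complex.add_re, h2] at h3
    simp at h3
    linarith

end H5.Sturm
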